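import Pool.Agent.Helper98.NRC.Count

/-!
# Normal rational curves through arcs
-/

open scoped LinearAlgebra.Projectivization
open Polynomial

namespace Pool.Agent.Helper98.NRC

noncomputable section

variable {K : Type*} [Field K] {k : ℕ}

/-- curves containing `A` -/
def NN (A : Set (ℙ K (V K k))) : Set (Set (ℙ K (V K k))) := {C | IsNRC C ∧ A ⊆ C}

theorem isNRC_image (h : V K k ≃ₗ[K] V K k) (C : Set (ℙ K (V K k))) (hC : IsNRC C) :
    IsNRC (mp h '' C) := by
  obtain ⟨g, rfl⟩ := (isNRC_iff C).mp hC
  refine (isNRC_iff _).mpr ⟨g.trans h, ?_⟩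
  rw [cur, cur, ← Set.image_comp]
  congr 1
  funext P
  exact (mp_trans g h P).symm

theorem image_symm_image (h : V K k ≃ₗ[K] V K k) (C : Set (ℙ K (V K k))) :
    mp h.symm '' (mp h '' C) = C := by
  rw [← Set.image_comp]
  have : mp h.symm ∘ mp h = id := funext (mp_symm_mp h)
  rw [this, Set.image_id]

theorem image_image_symm (h : V K k ≃ₗ[K] V K k) (C : Set (ℙ K (V K k))) :
    mp h '' (mp h.symm '' C) = C := by
  rw [← Set.image_comp]
  have : mp h ∘ mp h.symm = id := funext (mp_mp_symm h)
  rw [this, Set.image_id]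

theorem NN_image (h : V K k ≃ₗ[K] V K k) (A : Set (ℙ K (V K k))) :
    (NN (mp h '' A)).ncard = (NN A).ncard := by
  have h1 : NN (mp h '' A) = (fun C => mp h '' C) '' NN A := by
    ext C
    constructor
    · rintro ⟨hC, hA⟩
      refine ⟨mp h.symm '' C, ⟨isNRC_image _ _ hC, ?_⟩, image_image_symm h C⟩
      rw [← image_symm_image h A]
      exact Set.image_mono hA
    · rintro ⟨C, ⟨hC, hA⟩, rfl⟩
      exact ⟨isNRC_image _ _ hC, Set.image_mono hA⟩
  rw [h1, Set.ncard_image_of_injective]
  exact Set.image_injective.mpr (mp_injective h)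

theorem indep_mp (h : V K k ≃ₗ[K] V K k) (p : Fin k → ℙ K (V K k))
    (hp : Projectivization.Independent p) : Projectivization.Independent (fun i => mp h (p i)) := by
  obtain ⟨f, hf, hl⟩ := hp
  have h1 : LinearIndependent K (fun i => h (f i)) := hl.map' (h : V K k →ₗ[K] V K k) h.ker
  exact Projectivization.Independent.mk (fun i => h (f i)) (fun i => by simpa using hf i) h1

theorem isArc_image (h : V K k ≃ₗ[K] V K k) (A : Set (ℙ K (V K k))) (hA : IsArc A) :
    IsArc (mp h '' A) := by
  intro p hp hpA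
  choose r hr hrp using hpA
  have h1 := hA r (fun i j hij => hp (by rw [← hrp i, ← hrp j, hij])) hr
  have h2 := indep_mp h r h1
  have h4 : (fun i => mp h (r i)) = p := funext hrp
  rwa [h4] at h2

/-- standard position -/
theorem exists_std (p : Fin k → ℙ K (V K k)) (hp : Projectivization.Independent p) :
    ∃ h : V K k ≃ₗ[K] V K k, ∀ i, mp h (eP K i) = p i := by
  rcases k with _ | m
  · exact ⟨LinearEquiv.refl _ _, fun i => i.elim0⟩
  obtain ⟨f, hf, hl⟩ := hp
  let b := basisOfLinearIndependentOfCardEqFinrank hl (by simp)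
  refine ⟨(Pi.basisFun K (Fin (m + 1))).equiv b (Equiv.refl _), fun i => ?_⟩
  have h1 : (Pi.basisFun K (Fin (m + 1))).equiv b (Equiv.refl _) (ev K i) = f i := by
    have h2 : ev K i = Pi.basisFun K (Fin (m + 1)) i := by simp [ev]
    rw [h2, Module.Basis.equiv_apply]
    simp [b]
  rw [eP, mp_mk]
  simp only [h1]

/-- vanishing of functionals on arcs -/
theorem arc_functional (A : Set (ℙ K (V K k))) (hA : IsArc A) (w : Fin k → V K k)
    (hw : ∀ i, w i ≠ 0) (hwA : ∀ i, Projectivization.mk K (w i) (hw i) ∈ A)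
    (hinj : Function.Injective fun i => Projectivization.mk K (w i) (hw i))
    (l : V K k →ₗ[K] K) (hl : ∀ i, l (w i) = 0) : l = 0 := by
  have h1 := hA _ hinj hwA
  rw [Projectivization.independent_iff] at h1
  have h2 := h1.span_eq_top_of_card_eq_finrank' (by simp)
  apply LinearMap.ext_on_range h2
  intro i
  obtain ⟨a, ha⟩ := Projectivization.exists_smul_eq_mk_rep K (w i) (hw i)
  simp only [Function.comp_apply, LinearMap.zero_apply]
  rw [← ha, Units.smul_def, map_smul, hl i, smul_zero]

/-- an arc in standard position: a further point has non-zero coordinates -/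
theorem arc_coord (A : Set (ℙ K (V K k))) (hA : IsArc A) (he : ∀ i, eP K i ∈ A)
    (b : V K k) (hb : b ≠ 0) (hbA : Projectivization.mk K b hb ∈ A)
    (hbe : ∀ i, Projectivization.mk K b hb ≠ eP K i) (i : Fin k) : b i ≠ 0 := by
  classical
  intro h0
  have h1 : (LinearMap.proj i : V K k →ₗ[K] K) = 0 := by
    refine arc_functional A hA (fun j => if j = i then b else ev K j) ?_ ?_ ?_ _ ?_
    · intro j
      split_ifs
      · exact hb
      · exact ev_ne j
    · intro j
      by_cases h : j = i
      · simp only [h, if_true]; exact hbA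
      · simp only [h, if_false]; exact he j
    · intro j j' hjj
      by_cases h : j = i <;> by_cases h' : j' = i
      · rw [h, h']
      · simp only [h, h', if_true, if_false] at hjj
        exact absurd hjj (hbe j')
      · simp only [h, h', if_true, if_false] at hjj
        exact absurd hjj.symm (hbe j)
      · simp only [h, h', if_false] at hjj
        exact eP_injective hjj
    · intro j
      by_cases h : j = i
      · simp [h, h0]
      · simp [h, ev, Ne.symm h]
  have h2 := congrArg (fun l : V K k →ₗ[K] K => l (ev K i)) h1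
  simp [ev] at h2

/-- an arc in standard position: two further points -/
theorem arc_ratio (A : Set (ℙ K (V K k))) (hA : IsArc A) (he : ∀ i, eP K i ∈ A)
    (b : V K k) (hb : b ≠ 0) (hbA : Projectivization.mk K b hb ∈ A)
    (hbe : ∀ i, Projectivization.mk K b hb ≠ eP K i)
    (a : V K k) (ha : a ≠ 0) (haA : Projectivization.mk K a ha ∈ A)
    (hae : ∀ i, Projectivization.mk K a ha ≠ eP K i)
    (hab : Projectivization.mk K a ha ≠ Projectivization.mk K b hb) :
    Function.Injective fun i => b i / a i := by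
  classical
  intro i j hij
  by_contra hne
  have ha0 := arc_coord A hA he a ha haA hae
  have hij' : b i * a j = b j * a i := by
    have := ha0 i
    have := ha0 j
    simp only at hij
    field_simp at hij
    linear_combination hij
  have h1 : (a j • LinearMap.proj i - a i • LinearMap.proj j : V K k →ₗ[K] K) = 0 := by
    refine arc_functional A hA (fun l => if l = i then b else if l = j then a else ev K l)
      ?_ ?_ ?_ _ ?_
    · intro l
      by_cases h : l = i
      · simp only [h, if_true]; exact hb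
      · by_cases h' : l = j
        · simp only [h, h', if_true, if_false, Ne.symm hne]; exact ha
        · simp only [h, h', if_false]; exact ev_ne l
    · intro l
      by_cases h : l = i
      · simp only [h, if_true]; exact hbA
      · by_cases h' : l = j
        · simp only [h', if_true, if_false, Ne.symm hne]; exact haA
        · simp only [h, h', if_false]; exact he l
    · intro l l' hll
      by_cases h : l = i
      · by_cases h' : l' = i
        · rw [h, h']
        · by_cases h'' : l' = j
          · simp only [h, h'', if_true, if_false, Ne.symm hne] at hll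
            exact absurd hll.symm hab
          · simp only [h, h', h'', if_true, if_false] at hll
            exact absurd hll (hbe l')
      · by_cases g : l = j
        · by_cases h' : l' = i
          · simp only [g, h', if_true, if_false, Ne.symm hne] at hll
            exact absurd hll hab
          · by_cases h'' : l' = j
            · rw [g, h'']
            · simp only [g, h', h'', if_true, if_false, Ne.symm hne] at hll
              exact absurd hll (hae l')
        · by_cases h' : l' = i
          · simp only [h, g, h', if_true, if_false] at hll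
            exact absurd hll.symm (hbe l)
          · by_cases h'' : l' = j
            · simp only [h, g, h'', if_true, if_false, Ne.symm hne] at hll
              exact absurd hll.symm (hae l)
            · simp only [h, g, h', h'', if_false] at hll
              exact eP_injective hll
    · intro l
      by_cases h : l = i
      · simp only [h, if_true, LinearMap.sub_apply, LinearMap.smul_apply, LinearMap.proj_apply,
          smul_eq_mul]
        linear_combination hij'
      · by_cases h' : l = j
        · simp only [h', if_true, if_false, Ne.symm hne, LinearMap.sub_apply,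
            LinearMap.smul_apply, LinearMap.proj_apply, smul_eq_mul]
          ring
        · simp [h, h', ev, Ne.symm h, Ne.symm h']
  have h2 := congrArg (fun l : V K k →ₗ[K] K => l (ev K i)) h1
  simp [ev, Ne.symm hne, ha0 j] at h2


variable [Fintype K]

instance : Finite (ℙ K (V K k)) := Quotient.finite _

/-- reduction to standard position -/
theorem reduce (A : Set (ℙ K (V K k))) (hA : IsArc A) (hk : k ≤ A.ncard) :
    ∃ A' : Set (ℙ K (V K k)), IsArc A' ∧ A'.ncard = A.ncard ∧ (NN A').ncard = (NN A).ncard ∧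
      ∀ i, eP K i ∈ A' := by
  classical
  obtain ⟨t, ht, htc⟩ := Finset.exists_subset_card_eq
    (s := (Set.toFinite A).toFinset) (n := k) (by rwa [← Set.ncard_eq_toFinset_card])
  let e := t.equivFinOfCardEq htc
  have hp : Function.Injective (fun i : Fin k => ((e.symm i : t) : ℙ K (V K k))) :=
    fun i j hij => e.symm.injective (Subtype.ext hij)
  have hpA : ∀ i : Fin k, ((e.symm i : t) : ℙ K (V K k)) ∈ A := by
    intro i
    have := ht (e.symm i).2
    simpa using this
  obtain ⟨h, hh⟩ := exists_std _ (hA _ hp hpA)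
  refine ⟨mp h.symm '' A, isArc_image _ _ hA, Set.ncard_image_of_injective _ (mp_injective _),
    NN_image _ _, fun i => ⟨_, hpA i, ?_⟩⟩
  rw [← hh i, mp_symm_mp]

omit [Fintype K] in
theorem ncard_eP : (Set.range (eP K : Fin k → ℙ K (V K k))).ncard = k := by
  rw [← Set.image_univ, Set.ncard_image_of_injective _ eP_injective, Set.ncard_univ,
    Nat.card_eq_fintype_card, Fintype.card_fin]

theorem count_k (h3 : 3 ≤ k) (hq : k < Fintype.card K) (A : Set (ℙ K (V K k))) (hA : IsArc A)
    (hn : A.ncard = k) :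
    (NN A).ncard = (Fintype.card K - 1) ^ (k - 1) * (Fintype.card K - 2).descFactorial (k - 3) := by
  obtain ⟨A', -, hc, hN, he⟩ := reduce A hA hn.ge
  have h1 : Set.range (eP K : Fin k → ℙ K (V K k)) = A' := by
    apply Set.eq_of_subset_of_ncard_le
    · rintro P ⟨i, rfl⟩; exact he i
    · rw [hc, hn, ncard_eP]
    · exact Set.toFinite _
  rw [← hN, ← card_XX h3 hq]
  congr 1
  ext C
  constructor
  · rintro ⟨hC, hs⟩
    exact ⟨hC, fun i => hs (he i)⟩
  · rintro ⟨hC, hs⟩
    refine ⟨hC, ?_⟩
    rw [← h1]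
    rintro P ⟨i, rfl⟩
    exact hs i

/-- an arc in standard position with more than `k` points has a further point -/
theorem exists_b (A : Set (ℙ K (V K k))) (hA : IsArc A) (he : ∀ i, eP K i ∈ A)
    (hn : k + 1 ≤ A.ncard) :
    ∃ (b : V K k) (hb : b ≠ 0), Projectivization.mk K b hb ∈ A ∧
      (∀ i, Projectivization.mk K b hb ≠ eP K i) ∧ ∀ i, b i ≠ 0 := by
  have h1 : ∃ P ∈ A, P ∉ Set.range (eP K : Fin k → ℙ K (V K k)) := by
    by_contra hne
    push Not at hne
    have h2 := Set.ncard_le_ncard (s := A) (t := Set.range (eP K : Fin k → ℙ K (V K k))) hne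
      (Set.toFinite _)
    rw [ncard_eP] at h2
    omega
  obtain ⟨P, hP, hPe⟩ := h1
  induction P using Projectivization.ind with
  | h b hb =>
    have h2 : ∀ i, Projectivization.mk K b hb ≠ eP K i := fun i h => hPe ⟨i, h.symm⟩
    exact ⟨b, hb, hP, h2, arc_coord A hA he b hb hP h2⟩

theorem exists_ab (A : Set (ℙ K (V K k))) (hA : IsArc A) (he : ∀ i, eP K i ∈ A)
    (hn : k + 2 ≤ A.ncard) :
    ∃ (b : V K k) (hb : b ≠ 0) (a : V K k) (ha : a ≠ 0), Projectivization.mk K b hb ∈ A ∧
      Projectivization.mk K a ha ∈ A ∧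
      (∀ i, Projectivization.mk K b hb ≠ eP K i) ∧ (∀ i, b i ≠ 0) ∧
      (∀ i, Projectivization.mk K a ha ≠ eP K i) ∧ (∀ i, a i ≠ 0) ∧
      Projectivization.mk K a ha ≠ Projectivization.mk K b hb := by
  obtain ⟨b, hb, hbA, hbe, hb0⟩ := exists_b A hA he (by omega)
  have h1 : ∃ P ∈ A, P ∉ insert (Projectivization.mk K b hb)
      (Set.range (eP K : Fin k → ℙ K (V K k))) := by
    by_contra hne
    push Not at hne
    have h2 := Set.ncard_le_ncard (s := A) hne (Set.toFinite _)
    have h3 := Set.ncard_insert_le (Projectivization.mk K b hb)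
      (Set.range (eP K : Fin k → ℙ K (V K k)))
    rw [ncard_eP] at h3
    omega
  obtain ⟨P, hP, hPe⟩ := h1
  induction P using Projectivization.ind with
  | h a ha =>
    have h2 : ∀ i, Projectivization.mk K a ha ≠ eP K i := fun i h =>
      hPe (Or.inr ⟨i, h.symm⟩)
    exact ⟨b, hb, a, ha, hbA, hP, hbe, hb0, h2, arc_coord A hA he a ha hP h2,
      fun h => hPe (Or.inl h)⟩

theorem count_k1 (h3 : 3 ≤ k) (hq : k < Fintype.card K) (A : Set (ℙ K (V K k))) (hA : IsArc A)
    (hn : A.ncard = k + 1) :
    (NN A).ncard = (Fintype.card K - 2).descFactorial (k - 2) := by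
  obtain ⟨A', hA', hc, hN, he⟩ := reduce A hA (by omega)
  obtain ⟨b, hb, hbA, hbe, hb0⟩ := exists_b A' hA' he (by omega)
  have h1 : insert (Projectivization.mk K b hb) (Set.range (eP K : Fin k → ℙ K (V K k))) = A' := by
    apply Set.eq_of_subset_of_ncard_le
    · rintro P (rfl | ⟨i, rfl⟩)
      · exact hbA
      · exact he i
    · rw [hc, hn, Set.ncard_insert_of_notMem, ncard_eP]
      rintro ⟨i, hi⟩
      exact hbe i hi.symm
    · exact Set.toFinite _
  rw [← hN, ← card_through_b h3 hq b hb0 hb]
  congr 1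
  ext C
  constructor
  · rintro ⟨hC, hs⟩
    exact ⟨⟨hC, fun i => hs (he i)⟩, hs hbA⟩
  · rintro ⟨⟨hC, hs⟩, hbC⟩
    refine ⟨hC, ?_⟩
    rw [← h1]
    rintro P (rfl | ⟨i, rfl⟩)
    · exact hbC
    · exact hs i

/-- at most one curve through `k + 2` points of an arc -/
theorem unique_std (h3 : 3 ≤ k) (hq : k < Fintype.card K) (b : V K k) (hb : b ≠ 0)
    (hb0 : ∀ i, b i ≠ 0) (a : V K k) (ha : a ≠ 0) (ha0 : ∀ i, a i ≠ 0)
    (hab : Projectivization.mk K a ha ≠ Projectivization.mk K b hb) (C C' : Set (ℙ K (V K k)))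
    (hC : C ∈ XX K k) (hC' : C' ∈ XX K k) (hbC : Projectivization.mk K b hb ∈ C)
    (hbC' : Projectivization.mk K b hb ∈ C') (haC : Projectivization.mk K a ha ∈ C)
    (haC' : Projectivization.mk K a ha ∈ C') : C = C' := by
  have h1 : C ∈ Cbc b '' NC K k h3 := by
    rw [← through_b h3 hq.le b hb0 hb]
    exact ⟨hC, hbC⟩
  have h2 : C' ∈ Cbc b '' NC K k h3 := by
    rw [← through_b h3 hq.le b hb0 hb]
    exact ⟨hC', hbC'⟩
  obtain ⟨c, hc, rfl⟩ := h1
  obtain ⟨c', hc', rfl⟩ := h2
  have hab' : ∀ μ : K, a ≠ μ • b := by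
    intro μ h
    apply hab
    rw [Projectivization.mk_eq_mk_iff']
    exact ⟨μ, h.symm⟩
  obtain ⟨t, s, hs, _, h⟩ := third_point b c hb0 a ha haC (notCoord_of h3 a ha0) hab'
  obtain ⟨t', s', hs', _, h'⟩ := third_point b c' hb0 a ha haC' (notCoord_of h3 a ha0) hab'
  have : c = c' := by
    funext i
    rw [NC_formula h3 c (fun i => b i / a i) hc s t hs h i,
      NC_formula h3 c' (fun i => b i / a i) hc' s' t' hs' h' i]
  rw [this]

theorem NN_subsingleton (h3 : 3 ≤ k) (hq : k < Fintype.card K) (A : Set (ℙ K (V K k)))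
    (hA : IsArc A) (hn : k + 2 ≤ A.ncard) : (NN A).ncard ≤ 1 := by
  obtain ⟨A', hA', hc, hN, he⟩ := reduce A hA (by omega)
  rw [← hN, Set.ncard_le_one (Set.toFinite _)]
  obtain ⟨b, hb, a, ha, hbA, haA, hbe, hb0, hae, ha0, hab⟩ := exists_ab A' hA' he (by omega)
  intro C hC C' hC'
  exact unique_std h3 hq b hb hb0 a ha ha0 hab C C' ⟨hC.1, fun i => hC.2 (he i)⟩
    ⟨hC'.1, fun i => hC'.2 (he i)⟩ (hC.2 hbA) (hC'.2 hbA) (hC.2 haA) (hC'.2 haA)

theorem exists_k2 (h3 : 3 ≤ k) (A : Set (ℙ K (V K k))) (hA : IsArc A)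
    (hn : A.ncard = k + 2) : (NN A).ncard ≠ 0 := by
  obtain ⟨A', hA', hc, hN, he⟩ := reduce A hA (by omega)
  obtain ⟨b, hb, a, ha, hbA, haA, hbe, hb0, hae, ha0, hab⟩ := exists_ab A' hA' he (by omega)
  have h1 : insert (Projectivization.mk K a ha) (insert (Projectivization.mk K b hb)
      (Set.range (eP K : Fin k → ℙ K (V K k)))) = A' := by
    apply Set.eq_of_subset_of_ncard_le
    · rintro P (rfl | rfl | ⟨i, rfl⟩)
      · exact haA
      · exact hbA
      · exact he i
    · rw [hc, hn, Set.ncard_insert_of_notMem, Set.ncard_insert_of_notMem, ncard_eP]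
      · rintro ⟨i, hi⟩
        exact hbe i hi.symm
      · rintro (h | ⟨i, hi⟩)
        · exact hab h
        · exact hae i hi.symm
    · exact Set.toFinite _
  have hinj := arc_ratio A' hA' he b hb hbA hbe a ha haA hae hab
  rw [← hN, ne_eq, Set.ncard_eq_zero (Set.toFinite _), ← ne_eq, ← Set.nonempty_iff_ne_empty]
  -- the curve with parameters `c i = b i / a i`
  have hc' : Function.Injective (fun i => -(b i / a i)) := fun i j hij => hinj (neg_injective hij)
  refine ⟨Cbc b (fun i => -(b i / a i)), Cbc_isNRC (by omega) b _ hb0 hc', ?_⟩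
  rw [← h1]
  rintro P (rfl | rfl | ⟨i, rfl⟩)
  · refine mem_of_formula b _ hb0 a ha 0 1 ha0 (fun i => ?_)
    ring
  · exact b_mem_Cbc b _ hb
  · exact ev_mem_Cbc b _ hb0 hc' i

/-- every arc with `k`, `k + 1` or `k + 2` points is rational -/
theorem small_rational (h3 : 3 ≤ k) (hq : k < Fintype.card K) (A : Set (ℙ K (V K k))) (hA : IsArc A)
    (hn : k ≤ A.ncard) (hn2 : A.ncard ≤ k + 2) : ∃ C, IsNRC C ∧ A ⊆ C := by
  have h1 : (NN A).ncard ≠ 0 := by
    rcases (by omega : A.ncard = k ∨ A.ncard = k + 1 ∨ A.ncard = k + 2) with h | h | h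
    · rw [count_k h3 hq A hA h]
      refine mul_ne_zero (pow_ne_zero _ (by omega)) ?_
      rw [ne_eq, Nat.descFactorial_eq_zero_iff_lt]
      omega
    · rw [count_k1 h3 hq A hA h, ne_eq, Nat.descFactorial_eq_zero_iff_lt]
      omega
    · exact exists_k2 h3 A hA h
  obtain ⟨C, hC⟩ := Set.nonempty_of_ncard_ne_zero h1
  exact ⟨C, hC⟩

omit [Fintype K] in
theorem arc_subset (A B : Set (ℙ K (V K k))) (hA : IsArc A) (hB : B ⊆ A) : IsArc B :=
  fun p hp hpB => hA p hp fun i => hB (hpB i)

/-- upward closure -/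
theorem closure_up (h3 : 3 ≤ k) (hq : k < Fintype.card K) (n : ℕ) (hn : k + 3 ≤ n)
    (hR : ∀ A : Set (ℙ K (V K k)), IsArc A → A.ncard = n → ∃ C, IsNRC C ∧ A ⊆ C)
    (A : Set (ℙ K (V K k))) (hA : IsArc A) (hAn : A.ncard = n + 1) : ∃ C, IsNRC C ∧ A ⊆ C := by
  obtain ⟨x, y, hx, hy, hxy⟩ := (Set.one_lt_ncard_iff (Set.toFinite A)).mp (by omega)
  have hcx : (A \ {x}).ncard = n := by rw [Set.ncard_sdiff_singleton_of_mem hx]; omega
  have hcy : (A \ {y}).ncard = n := by rw [Set.ncard_sdiff_singleton_of_mem hy]; omega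
  obtain ⟨C, hC, hCs⟩ := hR _ (arc_subset A _ hA Set.sdiff_subset) hcx
  obtain ⟨C', hC', hCs'⟩ := hR _ (arc_subset A _ hA Set.sdiff_subset) hcy
  have hcxy : ((A \ {x}) \ {y}).ncard = n - 1 := by
    rw [Set.ncard_sdiff_singleton_of_mem (show y ∈ A \ {x} from ⟨hy, fun h => hxy h.symm⟩), hcx]
  have h1 := NN_subsingleton h3 hq ((A \ {x}) \ {y})
    (arc_subset A _ hA (Set.sdiff_subset.trans Set.sdiff_subset)) (by omega)
  rw [Set.ncard_le_one (Set.toFinite _)] at h1
  have h2 : C = C' := by
    apply h1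
    · exact ⟨hC, Set.sdiff_subset.trans hCs⟩
    · refine ⟨hC', fun P hP => hCs' ⟨hP.1.1, hP.2⟩⟩
  refine ⟨C, hC, fun P hP => ?_⟩
  by_cases h : P = x
  · rw [h2, h]
    exact hCs' ⟨hx, fun h' => hxy h'⟩
  · exact hCs ⟨hP, h⟩

end

end Pool.Agent.Helper98.NRC
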