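import Mathlib

/-!
# Normal rational curves through arcs: definitions and normal forms
-/

open scoped LinearAlgebra.Projectivization
open Polynomial

namespace Pool.Agent.Helper98.NRC

noncomputable section

variable {K : Type*} [Field K] {k : ℕ}

/-- `(t^{k-1}, …, t, 1)` -/
def nu (k : ℕ) (t : K) : Fin k → K := fun i => t ^ (k - 1 - (i : ℕ))

/-- `(1, 0, …, 0)` -/
def nuInf (K : Type*) [Field K] (k : ℕ) : Fin k → K := fun i => if (i : ℕ) = 0 then 1 else 0

/-- the standard normal rational curve `{(t^{k-1}, …, t, 1) : t ∈ K ∪ {∞}}` of `PG(k-1, K)` -/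
def stdNRC (K : Type*) [Field K] (k : ℕ) : Set (ℙ K (Fin k → K)) :=
  {P | (∃ (t : K) (h : nu k t ≠ 0), P = Projectivization.mk K (nu k t) h) ∨
    ∃ h : nuInf K k ≠ 0, P = Projectivization.mk K (nuInf K k) h}

/-- a normal rational curve: projectively equivalent to the standard one -/
def IsNRC (C : Set (ℙ K (Fin k → K))) : Prop :=
  ∃ g : (Fin k → K) ≃ₗ[K] (Fin k → K),
    C = Projectivization.map (g : (Fin k → K) →ₗ[K] (Fin k → K)) g.injective '' stdNRC K k

/-- an arc of `PG(k-1, K)`: any `k` distinct points of `A` are independent -/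
def IsArc (A : Set (ℙ K (Fin k → K))) : Prop :=
  ∀ p : Fin k → ℙ K (Fin k → K), Function.Injective p → (∀ i, p i ∈ A) →
    Projectivization.Independent p

/-! ### polynomials and functionals -/

/-- the polynomial of a linear functional -/
def fpoly (l : (Fin k → K) →ₗ[K] K) : K[X] := ∑ i : Fin k, C (l (Pi.single i 1)) * X ^ (k - 1 - (i:ℕ))

theorem fun_eq_sum (v : Fin k → K) : v = ∑ i, v i • (Pi.single i (1 : K) : Fin k → K) := by
  ext j
  simp [Finset.sum_apply, Pi.single_apply]

theorem l_apply (l : (Fin k → K) →ₗ[K] K) (v : Fin k → K) :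
    l v = ∑ i, v i * l (Pi.single i 1) := by
  conv_lhs => rw [fun_eq_sum v]
  simp

theorem fpoly_eval (l : (Fin k → K) →ₗ[K] K) (t : K) : (fpoly l).eval t = l (nu k t) := by
  rw [l_apply, fpoly, eval_finsetSum]
  refine Finset.sum_congr rfl fun i _ => ?_
  rw [eval_mul, eval_C, eval_pow, eval_X, nu, mul_comm]

theorem fpoly_coeff (l : (Fin k → K) →ₗ[K] K) (j : Fin k) :
    (fpoly l).coeff (k - 1 - (j:ℕ)) = l (Pi.single j 1) := by
  rw [fpoly, finsetSum_coeff]
  rw [Finset.sum_eq_single j]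
  · simp
  · intro i _ hij
    rw [coeff_C_mul, coeff_X_pow, if_neg, mul_zero]
    intro h
    apply hij
    ext
    omega
  · simp

theorem nuInf_eq (hk : 0 < k) : nuInf K k = Pi.single (⟨0, hk⟩ : Fin k) (1 : K) := by
  ext i
  simp only [nuInf, Pi.single_apply, Fin.ext_iff]

theorem fpoly_coeff_top (hk : 0 < k) (l : (Fin k → K) →ₗ[K] K) :
    (fpoly l).coeff (k - 1) = l (nuInf K k) := by
  have := fpoly_coeff l ⟨0, hk⟩
  rw [nuInf_eq hk, ← this]
  simp

theorem fpoly_natDegree (l : (Fin k → K) →ₗ[K] K) : (fpoly l).natDegree ≤ k - 1 := by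
  refine natDegree_sum_le_of_forall_le _ _ fun i _ => ?_
  refine (natDegree_C_mul_X_pow_le _ _).trans ?_
  omega

theorem fpoly_zero (l : (Fin k → K) →ₗ[K] K) (h : fpoly l = 0) : l = 0 := by
  ext v
  simp only [LinearMap.coe_comp, Function.comp_apply, LinearMap.coe_single, LinearMap.zero_apply]
  rw [← fpoly_coeff l v, h, coeff_zero]

/-- a functional vanishing at `k` values of the parameter is zero -/
theorem l_zero_of_card (l : (Fin k → K) →ₗ[K] K) (s : Finset K) (hs : k ≤ s.card) (hk : 0 < k)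
    (h : ∀ t ∈ s, l (nu k t) = 0) : l = 0 := by
  apply fpoly_zero
  refine eq_zero_of_natDegree_lt_card_of_eval_eq_zero' _ s (fun t ht => ?_) ?_
  · rw [fpoly_eval]; exact h t ht
  · have := fpoly_natDegree l
    omega

/-- a functional vanishing at `∞` and `k - 1` further values of the parameter is zero -/
theorem l_zero_of_card' (l : (Fin k → K) →ₗ[K] K) (s : Finset K) (hs : k - 1 ≤ s.card) (hk : 0 < k)
    (h : ∀ t ∈ s, l (nu k t) = 0) (h' : l (nuInf K k) = 0) : l = 0 := by
  apply fpoly_zero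
  rcases eq_or_ne k 1 with rfl | h1
  · have h2 := fpoly_coeff_top hk l
    rw [h'] at h2
    have h3 := fpoly_natDegree l
    rw [eq_C_of_natDegree_le_zero h3]
    simpa using h2
  refine eq_zero_of_degree_lt_of_eval_finset_eq_zero s ?_ (fun t ht => ?_)
  · rw [Polynomial.degree_lt_iff_coeff_zero]
    intro n hn
    rcases Nat.lt_or_ge (k - 1) n with h3 | h3
    · exact coeff_eq_zero_of_natDegree_lt (lt_of_le_of_lt (fpoly_natDegree l) h3)
    · have : n = k - 1 := by omega
      rw [this, fpoly_coeff_top hk, h']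
  · rw [fpoly_eval]; exact h t ht

/-- surjectivity criterion -/
theorem surj_of (G : (Fin k → K) →ₗ[K] (Fin k → K))
    (h : ∀ l : (Fin k → K) →ₗ[K] K, (∀ v, l (G v) = 0) → l = 0) : Function.Surjective G := by
  rw [← LinearMap.range_eq_top]
  by_contra hne
  obtain ⟨f, hf, hle⟩ := Submodule.exists_le_ker_of_lt_top _ (lt_top_iff_ne_top.mpr hne)
  exact hf (h f fun v => hle (LinearMap.mem_range_self G v))

/-- the linear map with `i`-th coordinate polynomial `h i` -/
def Lmap (h : Fin k → K[X]) : (Fin k → K) →ₗ[K] (Fin k → K) :=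
  LinearMap.pi fun i => ∑ j : Fin k, (h i).coeff (k - 1 - (j:ℕ)) • LinearMap.proj j

theorem Lmap_apply (h : Fin k → K[X]) (v : Fin k → K) (i : Fin k) :
    Lmap h v i = ∑ j : Fin k, (h i).coeff (k - 1 - (j:ℕ)) * v j := by
  simp [Lmap]

theorem Lmap_nu (hk : 0 < k) (h : Fin k → K[X]) (hd : ∀ i, (h i).natDegree ≤ k - 1) (t : K) (i : Fin k) :
    Lmap h (nu k t) i = (h i).eval t := by
  rw [Lmap_apply, eval_eq_sum_range' (n := k) (by have := hd i; omega)]
  rw [← Fin.sum_univ_eq_sum_range (fun j => (h i).coeff j * t ^ j) k]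
  rw [← Equiv.sum_comp Fin.revPerm]
  refine Finset.sum_congr rfl fun j _ => ?_
  have : k - 1 - ((Fin.revPerm j : Fin k) : ℕ) = j := by
    simp only [Fin.revPerm_apply, Fin.val_rev]
    omega
  simp only [nu]
  rw [this]

theorem Lmap_nuInf (hk : 0 < k) (h : Fin k → K[X]) (i : Fin k) :
    Lmap h (nuInf K k) i = (h i).coeff (k - 1) := by
  rw [Lmap_apply, nuInf_eq hk]
  simp [Pi.single_apply]

/-- the linear equivalence of a surjective linear map -/
def eqv (G : (Fin k → K) →ₗ[K] (Fin k → K)) (h : Function.Surjective G) :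
    (Fin k → K) ≃ₗ[K] (Fin k → K) :=
  LinearEquiv.ofBijective G ⟨LinearMap.injective_iff_surjective.mpr h, h⟩

theorem eqv_apply (G : (Fin k → K) →ₗ[K] (Fin k → K)) (h : Function.Surjective G) (v : Fin k → K) :
    eqv G h v = G v := rfl

end

end Pool.Agent.Helper98.NRC
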