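import Pool.Agent.Helper98.NRC.Frame

/-!
# Counting normal rational curves through the coordinate points
-/

open scoped LinearAlgebra.Projectivization
open Polynomial

namespace Pool.Agent.Helper98.NRC

noncomputable section

variable {K : Type*} [Field K] {k : ℕ}

/-- normalised parameters -/
def NC (K : Type*) [Field K] (k : ℕ) (h3 : 3 ≤ k) : Set (V K k) :=
  {c | Function.Injective c ∧ c ⟨0, by omega⟩ = 0 ∧ c ⟨1, by omega⟩ = 1}

theorem card_NC_aux [Fintype K] (m : ℕ) :
    Set.ncard {c : Fin (m + 2) → K | Function.Injective c ∧ c 0 = 0 ∧ c 1 = 1} =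
      (Fintype.card K - 2).descFactorial m := by
  classical
  have hcard : Fintype.card {x : K // x ≠ 0 ∧ x ≠ 1} = Fintype.card K - 2 := by
    have h1 : Fintype.card {x : K // x ≠ 0 ∧ x ≠ 1} =
        Fintype.card {x : K // ¬ (x ∈ ({0, 1} : Finset K))} := by
      apply Fintype.card_congr
      exact Equiv.subtypeEquivRight (fun x => by simp)
    rw [h1, Fintype.card_subtype_compl, Fintype.card_coe, Finset.card_pair zero_ne_one]
  rw [← hcard]
  have h2 : (Fintype.card {x : K // x ≠ 0 ∧ x ≠ 1}).descFactorial m =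
      Fintype.card (Fin m ↪ {x : K // x ≠ 0 ∧ x ≠ 1}) := by
    rw [Fintype.card_embedding_eq, Fintype.card_fin]
  rw [h2, ← Nat.card_eq_fintype_card, ← Nat.card_coe_set_eq]
  apply Nat.card_congr
  refine ⟨fun c => ⟨fun i => ⟨c.1 i.succ.succ, ?_, ?_⟩, ?_⟩, fun d =>
    ⟨Fin.cons 0 (Fin.cons 1 (fun i => (d i : K))), ?_⟩, ?_, ?_⟩
  · obtain ⟨c, h1, h2, h3⟩ := c
    intro h
    have := h1 (h.trans h2.symm)
    exact absurd this (Fin.succ_ne_zero _)
  · obtain ⟨c, h1, h2, h3⟩ := c
    intro h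
    have := h1 (h.trans h3.symm)
    rw [← Fin.succ_zero_eq_one, Fin.succ_inj] at this
    exact absurd this (Fin.succ_ne_zero _)
  · obtain ⟨c, h1, h2, h3⟩ := c
    intro i j hij
    have := h1 (Subtype.ext_iff.mp hij)
    simpa [Fin.succ_inj] using this
  · refine ⟨?_, rfl, rfl⟩
    rw [Fin.cons_injective_iff, Fin.cons_injective_iff]
    refine ⟨?_, ?_, ?_⟩
    · rintro ⟨i, hi⟩
      refine Fin.cases ?_ (fun j => ?_) i hi
      · intro h
        simp at h
      · intro h
        exact (d j).2.1 (by simpa using h)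
    · rintro ⟨i, hi⟩
      exact (d i).2.2 hi
    · exact fun i j hij => d.injective (Subtype.ext hij)
  · rintro ⟨c, h1, h2, h3⟩
    apply Subtype.ext
    funext i
    refine Fin.cases ?_ (fun i => Fin.cases ?_ (fun j => ?_) i) i
    · exact h2.symm
    · exact h3.symm
    · rfl
  · intro d
    ext i
    rfl

theorem card_NC [Fintype K] (h3 : 3 ≤ k) :
    (NC K k h3).ncard = (Fintype.card K - 2).descFactorial (k - 2) := by
  obtain ⟨m, rfl⟩ : ∃ m, k = m + 2 := ⟨k - 2, by omega⟩
  exact card_NC_aux m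

theorem NC_formula (h3 : 3 ≤ k) (c x : V K k) (hc : c ∈ NC K k h3) (s t : K) (hs : s ≠ 0)
    (h : ∀ i, x i = s * (t - c i)) (i : Fin k) :
    c i = (x ⟨0, by omega⟩ - x i) / (x ⟨0, by omega⟩ - x ⟨1, by omega⟩) := by
  obtain ⟨_, h0, h1⟩ := hc
  have e0 := h ⟨0, by omega⟩
  have e1 := h ⟨1, by omega⟩
  have ei := h i
  rw [h0] at e0
  rw [h1] at e1
  rw [e0, e1, ei]
  have : s * (t - 0) - s * (t - 1) = s := by ring
  rw [this]
  field_simp
  ring

theorem NC_of_injective (h3 : 3 ≤ k) (c : V K k) (hc : Function.Injective c) :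
    ∃ α β : K, α ≠ 0 ∧ (fun i => α * c i + β) ∈ NC K k h3 := by
  have hne : c ⟨1, by omega⟩ - c ⟨0, by omega⟩ ≠ 0 := by
    rw [sub_ne_zero]
    intro h
    have := hc h
    simp [Fin.ext_iff] at this
  refine ⟨(c ⟨1, by omega⟩ - c ⟨0, by omega⟩)⁻¹,
    -((c ⟨1, by omega⟩ - c ⟨0, by omega⟩)⁻¹ * c ⟨0, by omega⟩), inv_ne_zero hne, ?_, ?_, ?_⟩
  · intro i j hij
    simp only [add_left_inj] at hij
    exact hc (mul_left_cancel₀ (inv_ne_zero hne) hij)
  · ring
  · field_simp
    ring

/-- curves through the coordinate points -/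
def XX (K : Type*) [Field K] (k : ℕ) : Set (Set (ℙ K (V K k))) :=
  {C | IsNRC C ∧ ∀ i, Projectivization.mk K (ev K i) (ev_ne i) ∈ C}

theorem notCoord_of (h3 : 3 ≤ k) (b : V K k) (hb : ∀ i, b i ≠ 0) : NotCoord b := by
  intro i μ h
  have : ∃ j : Fin k, j ≠ i := by
    rcases eq_or_ne i ⟨0, by omega⟩ with rfl | h0
    · exact ⟨⟨1, by omega⟩, by simp [Fin.ext_iff]⟩
    · exact ⟨⟨0, by omega⟩, h0.symm⟩
  obtain ⟨j, hj⟩ := this
  apply hb j
  rw [h]
  simp [ev, hj]

variable [Fintype K]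

theorem through_b (h3 : 3 ≤ k) (hq : k ≤ Fintype.card K) (b : V K k) (hb : ∀ i, b i ≠ 0)
    (hb0 : b ≠ 0) :
    {C | C ∈ XX K k ∧ Projectivization.mk K b hb0 ∈ C} = Cbc b '' NC K k h3 := by
  have hk : 0 < k := by omega
  ext C
  constructor
  · rintro ⟨⟨hC, he⟩, hbC⟩
    obtain ⟨_, c, hc, rfl⟩ := normal_form hk hq C hC he b hb0 hbC (notCoord_of h3 b hb)
    obtain ⟨α, β, hα, hN⟩ := NC_of_injective h3 c hc
    exact ⟨_, hN, Cbc_affine b c α β hα⟩
  · rintro ⟨c, hc, rfl⟩
    exact ⟨⟨Cbc_isNRC hk b c hb hc.1, ev_mem_Cbc b c hb hc.1⟩, b_mem_Cbc b c hb0⟩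

/-- there is a further point on `C_{b,c}` -/
theorem exists_extra (h3 : 3 ≤ k) (hq : k < Fintype.card K) (b c : V K k) (hb : ∀ i, b i ≠ 0)
    (hc : Function.Injective c) :
    ∃ (a : V K k) (ha : a ≠ 0), Projectivization.mk K a ha ∈ Cbc b c ∧ (∀ i, a i ≠ 0) ∧
      ∀ μ : K, a ≠ μ • b := by
  classical
  have h1 : ∃ t : K, t ∉ Finset.univ.image c := by
    by_contra hne
    push Not at hne
    have h2 : (Finset.univ : Finset K) ⊆ Finset.univ.image c := fun t _ => hne t
    have h4 := (Finset.card_le_card h2).trans Finset.card_image_le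
    simp only [Finset.card_univ, Fintype.card_fin] at h4
    omega
  obtain ⟨t, ht⟩ := h1
  have ht' : ∀ i, t - c i ≠ 0 := by
    intro i h
    apply ht
    rw [Finset.mem_image]
    exact ⟨i, Finset.mem_univ i, (sub_eq_zero.mp h).symm⟩
  have h0 : ∀ i, pv b c t i ≠ 0 := fun i =>
    mul_ne_zero (hb i) (Finset.prod_ne_zero_iff.mpr fun j _ => ht' j)
  have hne : pv b c t ≠ 0 := by
    intro h
    exact h0 ⟨0, by omega⟩ (congrFun h _)
  refine ⟨pv b c t, hne, ?_, h0, ?_⟩
  · rw [mem_Cbc]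
    exact Or.inl ⟨t, 1, by simp⟩
  · intro μ h
    have h4 : ∀ i, μ * (t - c i) = ∏ j : Fin k, (t - c j) := by
      intro i
      have h5 := congrFun h i
      rw [pv, Pi.smul_apply, smul_eq_mul] at h5
      rw [← Finset.mul_prod_erase _ _ (Finset.mem_univ i)]
      have h6 := hb i
      have h7 : ∏ j ∈ Finset.univ.erase i, (t - c j) = μ := by
        apply mul_left_cancel₀ h6
        rw [h5]; ring
      rw [h7]
      ring
    have h5 := (h4 ⟨0, by omega⟩).trans (h4 ⟨1, by omega⟩).symm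
    have hμ : μ ≠ 0 := by
      rintro rfl
      exact hne (by simpa using h)
    have h6 := mul_left_cancel₀ hμ h5
    have h7 := hc (sub_right_inj.mp h6)
    simp [Fin.ext_iff] at h7

theorem Cbc_injOn (h3 : 3 ≤ k) (hq : k < Fintype.card K) (b : V K k) (hb : ∀ i, b i ≠ 0) :
    Set.InjOn (Cbc b) (NC K k h3) := by
  intro c hc c' hc' hcc
  obtain ⟨a, ha, haC, ha0, hab⟩ := exists_extra h3 hq b c hb hc.1
  obtain ⟨t, s, hs, _, h⟩ := third_point b c hb a ha haC (notCoord_of h3 a ha0) hab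
  rw [hcc] at haC
  obtain ⟨t', s', hs', _, h'⟩ := third_point b c' hb a ha haC (notCoord_of h3 a ha0) hab
  funext i
  rw [NC_formula h3 c (fun i => b i / a i) hc s t hs h i,
    NC_formula h3 c' (fun i => b i / a i) hc' s' t' hs' h' i]

/-- number of curves through the coordinate points and `b` -/
theorem card_through_b (h3 : 3 ≤ k) (hq : k < Fintype.card K) (b : V K k) (hb : ∀ i, b i ≠ 0)
    (hb0 : b ≠ 0) :
    Set.ncard {C | C ∈ XX K k ∧ Projectivization.mk K b hb0 ∈ C} =
      (Fintype.card K - 2).descFactorial (k - 2) := by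
  rw [through_b h3 hq.le b hb hb0, (Cbc_injOn h3 hq b hb).ncard_image, card_NC]

/-- parametrisation of the curve -/
def par (h3 : 3 ≤ k) (g : V K k ≃ₗ[K] V K k) : Option K → ℙ K (V K k)
  | none => Projectivization.mk K (g (nuInf K k)) (by simpa using nuInf_ne (by omega))
  | some t => Projectivization.mk K (g (nu k t)) (by simpa using nu_ne (by omega) t)

omit [Fintype K] in
theorem par_injective (h3 : 3 ≤ k) (g : V K k ≃ₗ[K] V K k) : Function.Injective (par h3 g) := by
  have hinf : ∀ (t : K) (a : K), a • g (nu k t) ≠ g (nuInf K k) := by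
    intro t a h
    rw [← map_smul] at h
    have h1 := g.injective h
    have h2 := congrFun h1 ⟨k - 1, by omega⟩
    have h4 := congrFun h1 ⟨0, by omega⟩
    have h5 : ¬ (k - 1 = 0) := by omega
    simp [nu, nuInf, h5] at h2 h4
    simp [h2] at h4
  intro x y hxy
  rcases x with _ | x <;> rcases y with _ | y
  · rfl
  · simp only [par] at hxy
    rw [Projectivization.mk_eq_mk_iff'] at hxy
    obtain ⟨a, ha⟩ := hxy
    exact absurd ha (hinf y a)
  · simp only [par] at hxy
    rw [eq_comm, Projectivization.mk_eq_mk_iff'] at hxy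
    obtain ⟨a, ha⟩ := hxy
    exact absurd ha (hinf x a)
  · simp only [par] at hxy
    rw [Projectivization.mk_eq_mk_iff'] at hxy
    obtain ⟨a, ha⟩ := hxy
    rw [← map_smul] at ha
    have h1 := g.injective ha
    have h2 := congrFun h1 ⟨k - 1, by omega⟩
    have h4 := congrFun h1 ⟨k - 2, by omega⟩
    have h6 : k - 1 - (k - 2) = 1 := by omega
    simp [nu, h6] at h2 h4
    rw [h2] at h4
    simpa using h4.symm

omit [Fintype K] in
theorem cur_eq_range (h3 : 3 ≤ k) (g : V K k ≃ₗ[K] V K k) : cur g = Set.range (par h3 g) := by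
  have hk : 0 < k := by omega
  ext P
  induction P using Projectivization.ind with
  | h v hv =>
    rw [mem_cur hk]
    constructor
    · rintro (⟨t, μ, h⟩ | ⟨μ, h⟩)
      · refine ⟨some t, ?_⟩
        rw [par, eq_comm, Projectivization.mk_eq_mk_iff']
        exact ⟨μ, h.symm⟩
      · refine ⟨none, ?_⟩
        rw [par, eq_comm, Projectivization.mk_eq_mk_iff']
        exact ⟨μ, h.symm⟩
    · rintro ⟨x, hx⟩
      rcases x with _ | t
      · rw [par, eq_comm, Projectivization.mk_eq_mk_iff'] at hx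
        obtain ⟨a, ha⟩ := hx
        exact Or.inr ⟨a, ha.symm⟩
      · rw [par, eq_comm, Projectivization.mk_eq_mk_iff'] at hx
        obtain ⟨a, ha⟩ := hx
        exact Or.inl ⟨t, a, ha.symm⟩

theorem card_NRC (h3 : 3 ≤ k) (C : Set (ℙ K (V K k))) (hC : IsNRC C) :
    C.ncard = Fintype.card K + 1 := by
  obtain ⟨g, rfl⟩ := (isNRC_iff C).mp hC
  rw [cur_eq_range h3, ← Set.image_univ, Set.ncard_image_of_injective _ (par_injective h3 g),
    Set.ncard_univ, Nat.card_eq_fintype_card, Fintype.card_option]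

/-- coordinate points -/
def eP (K : Type*) [Field K] {k : ℕ} (i : Fin k) : ℙ K (V K k) := Projectivization.mk K (ev K i) (ev_ne i)

omit [Fintype K] in
theorem eP_injective : Function.Injective (eP K : Fin k → ℙ K (V K k)) := by
  intro i j hij
  rw [eP, eP, Projectivization.mk_eq_mk_iff'] at hij
  obtain ⟨a, ha⟩ := hij
  by_contra hne
  have := congrFun ha i
  simp [ev, hne] at this

omit [Fintype K] in
theorem notCoord_iff (b : V K k) (hb : b ≠ 0) :
    NotCoord b ↔ ∀ i, Projectivization.mk K b hb ≠ eP K i := by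
  constructor
  · intro h i h2
    rw [eP, Projectivization.mk_eq_mk_iff'] at h2
    obtain ⟨a, ha⟩ := h2
    exact h i a ha.symm
  · intro h i μ h2
    apply h i
    rw [eP, Projectivization.mk_eq_mk_iff']
    exact ⟨μ, h2.symm⟩

/-- normalised vectors with non-zero coordinates -/
def YY (K : Type*) [Field K] (k : ℕ) (h3 : 3 ≤ k) : Set (V K k) :=
  {b | b ⟨0, by omega⟩ = 1 ∧ ∀ i, b i ≠ 0}

theorem card_YY (h3 : 3 ≤ k) : (YY K k h3).ncard = (Fintype.card K - 1) ^ (k - 1) := by
  classical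
  obtain ⟨m, rfl⟩ : ∃ m, k = m + 1 := ⟨k - 1, by omega⟩
  have hcard : Fintype.card {x : K // x ≠ 0} = Fintype.card K - 1 := by
    rw [Fintype.card_subtype_compl]
    simp
  rw [← hcard]
  have h2 : (Fintype.card {x : K // x ≠ 0}) ^ (m + 1 - 1) =
      Fintype.card (Fin m → {x : K // x ≠ 0}) := by
    simp
  rw [h2, ← Nat.card_eq_fintype_card, ← Nat.card_coe_set_eq]
  apply Nat.card_congr
  refine ⟨fun b i => ⟨b.1 i.succ, b.2.2 _⟩, fun d => ⟨Fin.cons 1 (fun i => (d i : K)), rfl, ?_⟩,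
    ?_, ?_⟩
  · intro i
    refine Fin.cases ?_ (fun j => ?_) i
    · simp
    · simpa using (d j).2
  · rintro ⟨b, h1, h2⟩
    apply Subtype.ext
    funext i
    refine Fin.cases ?_ (fun j => ?_) i
    · exact h1.symm
    · rfl
  · intro d
    funext i
    rfl


/-- number of further points on a curve through the coordinate points, in normalised form -/
theorem card_extra (h3 : 3 ≤ k) (hq : k < Fintype.card K) (C : Set (ℙ K (V K k)))
    (hC : C ∈ XX K k) :
    Set.ncard {b | b ∈ YY K k h3 ∧ ∃ hb : b ≠ 0, Projectivization.mk K b hb ∈ C} =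
      Fintype.card K + 1 - k := by
  have hk : 0 < k := by omega
  obtain ⟨hN, he⟩ := hC
  have hsub : Set.range (eP K : Fin k → ℙ K (V K k)) ⊆ C := by
    rintro P ⟨i, rfl⟩
    exact he i
  have hr : (Set.range (eP K : Fin k → ℙ K (V K k))).ncard = k := by
    rw [← Set.image_univ, Set.ncard_image_of_injective _ eP_injective, Set.ncard_univ,
      Nat.card_eq_fintype_card, Fintype.card_fin]
  have h7 : (C \ Set.range (eP K : Fin k → ℙ K (V K k))).ncard = Fintype.card K + 1 - k := by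
    rw [Set.ncard_sdiff hsub (Set.finite_range _), card_NRC h3 C hN, hr]
  rw [← h7]
  refine Set.ncard_congr (fun b hb => Projectivization.mk K b hb.2.choose) ?_ ?_ ?_
  · intro b hb
    refine ⟨hb.2.choose_spec, ?_⟩
    rintro ⟨i, hi⟩
    exact (notCoord_iff b hb.2.choose).mp (notCoord_of h3 b hb.1.2) i hi.symm
  · intro b b' hb hb' h
    rw [Projectivization.mk_eq_mk_iff'] at h
    obtain ⟨a, ha⟩ := h
    have h0 := congrFun ha ⟨0, hk⟩
    have e1 : b ⟨0, hk⟩ = 1 := hb.1.1
    have e2 : b' ⟨0, hk⟩ = 1 := hb'.1.1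
    rw [Pi.smul_apply, e1, e2, smul_eq_mul, mul_one] at h0
    rw [← ha, h0, one_smul]
  · intro P hP
    induction P using Projectivization.ind with
    | h v hv =>
      have hn : NotCoord v := by
        rw [notCoord_iff v hv]
        intro i hi
        exact hP.2 ⟨i, hi.symm⟩
      obtain ⟨hv0, -⟩ := normal_form hk hq.le C hN he v hv hP.1 hn
      have h1 : (v ⟨0, hk⟩)⁻¹ • v ≠ 0 := smul_ne_zero (inv_ne_zero (hv0 _)) hv
      have h2 : Projectivization.mk K ((v ⟨0, hk⟩)⁻¹ • v) h1 = Projectivization.mk K v hv := by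
        rw [Projectivization.mk_eq_mk_iff']
        exact ⟨_, rfl⟩
      refine ⟨(v ⟨0, hk⟩)⁻¹ • v, ⟨⟨?_, ?_⟩, h1, ?_⟩, ?_⟩
      · simp [hv0]
      · intro i
        simp [hv0]
      · rw [h2]; exact hP.1
      · exact h2

/-- number of curves through the coordinate points -/
theorem card_XX (h3 : 3 ≤ k) (hq : k < Fintype.card K) :
    (XX K k).ncard = (Fintype.card K - 1) ^ (k - 1) * (Fintype.card K - 2).descFactorial (k - 3) := by
  classical
  have hk : 0 < k := by omega
  have : Finite (ℙ K (V K k)) := Quotient.finite _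
  have hfX : (XX K k).Finite := Set.toFinite _
  have hfY : (YY K k h3).Finite := Set.toFinite _
  have key := Finset.sum_card_bipartiteAbove_eq_sum_card_bipartiteBelow
    (s := hfY.toFinset) (t := hfX.toFinset)
    (fun (b : V K k) (C : Set (ℙ K (V K k))) => ∃ hb : b ≠ 0, Projectivization.mk K b hb ∈ C)
  have h1 : ∀ b ∈ hfY.toFinset, (Finset.bipartiteAbove
      (fun (b : V K k) (C : Set (ℙ K (V K k))) => ∃ hb : b ≠ 0, Projectivization.mk K b hb ∈ C)
      hfX.toFinset b).card = (Fintype.card K - 2).descFactorial (k - 2) := by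
    intro b hb
    have hb' : b ∈ YY K k h3 := by simpa using hb
    have hb0 : b ≠ 0 := fun h => hb'.2 ⟨0, hk⟩ (congrFun h _)
    rw [← card_through_b h3 hq b hb'.2 hb0, ← Set.ncard_coe_finset]
    congr 1
    ext C
    simp [hb0]
  have h2 : ∀ C ∈ hfX.toFinset, (Finset.bipartiteBelow
      (fun (b : V K k) (C : Set (ℙ K (V K k))) => ∃ hb : b ≠ 0, Projectivization.mk K b hb ∈ C)
      hfY.toFinset C).card = Fintype.card K + 1 - k := by
    intro C hC
    have hC' : C ∈ XX K k := by simpa using hC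
    rw [← card_extra h3 hq C hC', ← Set.ncard_coe_finset]
    congr 1
    ext b
    simp
  rw [Finset.sum_const_nat h1, Finset.sum_const_nat h2, ← Set.ncard_eq_toFinset_card _ hfY,
    ← Set.ncard_eq_toFinset_card _ hfX, card_YY] at key
  have h4 : k - 2 = (k - 3) + 1 := by omega
  rw [h4, Nat.descFactorial_succ] at key
  have h5 : Fintype.card K - 2 - (k - 3) = Fintype.card K + 1 - k := by omega
  rw [h5] at key
  have h6 : 0 < Fintype.card K + 1 - k := by omega
  apply Nat.eq_of_mul_eq_mul_right h6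
  rw [← key]
  ring

end

end Pool.Agent.Helper98.NRC
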