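import Pool.Agent.Helper98.NRC.Basic

/-!
# Normal rational curves through the coordinate points
-/

open scoped LinearAlgebra.Projectivization
open Polynomial

namespace Pool.Agent.Helper98.NRC

noncomputable section

variable {K : Type*} [Field K] {k : ℕ}

abbrev V (K : Type*) (k : ℕ) : Type _ := Fin k → K

/-- the projectivity of a linear equivalence -/
def mp (g : V K k ≃ₗ[K] V K k) : ℙ K (V K k) → ℙ K (V K k) :=
  Projectivization.map (g : V K k →ₗ[K] V K k) g.injective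

theorem mp_mk (g : V K k ≃ₗ[K] V K k) (v : V K k) (hv : v ≠ 0) :
    mp g (Projectivization.mk K v hv) = Projectivization.mk K (g v) (by simpa using hv) := rfl

theorem mp_trans (g h : V K k ≃ₗ[K] V K k) (P : ℙ K (V K k)) : mp (g.trans h) P = mp h (mp g P) := by
  induction P using Projectivization.ind with
  | h v hv => rfl

theorem mp_symm_mp (g : V K k ≃ₗ[K] V K k) (P : ℙ K (V K k)) : mp g.symm (mp g P) = P := by
  induction P using Projectivization.ind with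
  | h v hv => rw [mp_mk, mp_mk]; simp

theorem mp_mp_symm (g : V K k ≃ₗ[K] V K k) (P : ℙ K (V K k)) : mp g (mp g.symm P) = P := by
  induction P using Projectivization.ind with
  | h v hv => rw [mp_mk, mp_mk]; simp

theorem mp_injective (g : V K k ≃ₗ[K] V K k) : Function.Injective (mp g) :=
  Function.LeftInverse.injective (mp_symm_mp g)

/-- the curve of a linear equivalence -/
def cur (g : V K k ≃ₗ[K] V K k) : Set (ℙ K (V K k)) := mp g '' stdNRC K k

theorem isNRC_iff (C : Set (ℙ K (V K k))) : IsNRC C ↔ ∃ g : V K k ≃ₗ[K] V K k, C = cur g := Iff.rfl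

theorem nu_ne (hk : 0 < k) (t : K) : nu k t ≠ 0 := by
  intro h
  have := congrFun h ⟨k - 1, by omega⟩
  simp [nu] at this

theorem nuInf_ne (hk : 0 < k) : nuInf K k ≠ 0 := by
  intro h
  have := congrFun h ⟨0, hk⟩
  simp [nuInf] at this

theorem mem_cur (hk : 0 < k) (g : V K k ≃ₗ[K] V K k) (v : V K k) (hv : v ≠ 0) :
    Projectivization.mk K v hv ∈ cur g ↔
      (∃ t μ : K, v = μ • g (nu k t)) ∨ ∃ μ : K, v = μ • g (nuInf K k) := by
  constructor
  · rintro ⟨P, hP, hPv⟩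
    rcases hP with ⟨t, h, rfl⟩ | ⟨h, rfl⟩
    · rw [mp_mk, eq_comm, Projectivization.mk_eq_mk_iff'] at hPv
      obtain ⟨a, ha⟩ := hPv
      exact Or.inl ⟨t, a, ha.symm⟩
    · rw [mp_mk, eq_comm, Projectivization.mk_eq_mk_iff'] at hPv
      obtain ⟨a, ha⟩ := hPv
      exact Or.inr ⟨a, ha.symm⟩
  · rintro (⟨t, μ, h⟩ | ⟨μ, h⟩)
    · refine ⟨Projectivization.mk K (nu k t) (nu_ne hk t), Or.inl ⟨t, nu_ne hk t, rfl⟩, ?_⟩
      rw [mp_mk, eq_comm, Projectivization.mk_eq_mk_iff']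
      exact ⟨μ, h.symm⟩
    · refine ⟨Projectivization.mk K (nuInf K k) (nuInf_ne hk), Or.inr ⟨nuInf_ne hk, rfl⟩, ?_⟩
      rw [mp_mk, eq_comm, Projectivization.mk_eq_mk_iff']
      exact ⟨μ, h.symm⟩

/-! ### reparametrisation -/

/-- moves `∞` to `a` -/
def Ga (k : ℕ) (a : K) : V K k →ₗ[K] V K k :=
  Lmap (fun i : Fin k => (C a * X + 1) ^ (k - 1 - (i:ℕ)) * X ^ (i:ℕ))

theorem Ga_natDegree (a : K) (i : Fin k) :
    ((C a * X + 1 : K[X]) ^ (k - 1 - (i:ℕ)) * X ^ (i:ℕ)).natDegree ≤ k - 1 := by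
  have h1 : (C a * X + 1 : K[X]).natDegree ≤ 1 := by
    have : (C a * X + 1 : K[X]) = C a * X + C 1 := by simp
    rw [this]
    exact natDegree_linear_le
  have h2 := natDegree_pow_le_of_le (k - 1 - (i:ℕ)) h1
  have h3 : ((X : K[X]) ^ (i:ℕ)).natDegree ≤ i := natDegree_X_pow_le _
  refine (natDegree_mul_le_of_le h2 h3).trans ?_
  have := i.2
  omega

theorem Ga_nu (hk : 0 < k) (a t : K) (i : Fin k) :
    Ga k a (nu k t) i = (a * t + 1) ^ (k - 1 - (i:ℕ)) * t ^ (i:ℕ) := by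
  rw [Ga, Lmap_nu hk _ (Ga_natDegree a)]
  simp

theorem Ga_nu_ne (hk : 0 < k) (a t : K) (ht : t ≠ 0) :
    Ga k a (nu k t) = t ^ (k - 1) • nu k (t⁻¹ + a) := by
  ext i
  rw [Ga_nu hk, Pi.smul_apply, smul_eq_mul, nu]
  have h1 : a * t + 1 = t * (t⁻¹ + a) := by field_simp; ring
  have h2 : k - 1 = (k - 1 - (i:ℕ)) + i := by have := i.2; omega
  rw [h1, mul_pow]
  conv_rhs => rw [h2, pow_add]
  have h3 : k - 1 - (i:ℕ) + (i:ℕ) - (i:ℕ) = k - 1 - (i:ℕ) := by omega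
  rw [h3]
  ring

theorem Ga_nu_zero (hk : 0 < k) (a : K) : Ga k a (nu k 0) = nuInf K k := by
  ext i
  rw [Ga_nu hk, nuInf]
  split_ifs with h
  · simp [h]
  · simp [h]

theorem Ga_nuInf (hk : 0 < k) (a : K) : Ga k a (nuInf K k) = nu k a := by
  ext i
  rw [Ga, Lmap_nuInf hk, nu]
  have h1 : (C a * X + 1 : K[X]).natDegree ≤ 1 := by
    have : (C a * X + 1 : K[X]) = C a * X + C 1 := by simp
    rw [this]
    exact natDegree_linear_le
  have h2 := coeff_pow_of_natDegree_le (m := k - 1 - (i:ℕ)) h1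
  have h3 : k - 1 = (k - 1 - (i:ℕ)) + i := by have := i.2; omega
  have h4 : ((C a * X + 1 : K[X]) ^ (k - 1 - (i:ℕ)) * X ^ (i:ℕ)).coeff ((k - 1 - (i:ℕ)) + i) =
      ((C a * X + 1 : K[X]) ^ (k - 1 - (i:ℕ))).coeff (k - 1 - (i:ℕ)) := coeff_mul_X_pow _ _ _
  rw [← h3] at h4
  rw [h4]
  rw [mul_one] at h2
  rw [h2]
  congr 1
  simp [coeff_one]

variable [Fintype K]

theorem Ga_surj (hk : 0 < k) (hq : k ≤ Fintype.card K) (a : K) : Function.Surjective (Ga k a) := by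
  refine surj_of _ fun l hl => ?_
  refine l_zero_of_card l Finset.univ (by simpa using hq) hk fun s _ => ?_
  rcases eq_or_ne s a with rfl | hs
  · rw [← Ga_nuInf hk s]
    exact hl _
  · have h1 : (s - a)⁻¹ ≠ 0 := inv_ne_zero (sub_ne_zero.mpr hs)
    have h2 := Ga_nu_ne hk a _ h1
    have h3 := hl (nu k (s - a)⁻¹)
    rw [h2, inv_inv, sub_add_cancel, map_smul, smul_eq_mul] at h3
    exact (mul_eq_zero.mp h3).resolve_left (pow_ne_zero _ h1)

theorem reparam (hk : 0 < k) (hq : k ≤ Fintype.card K) (g : V K k ≃ₗ[K] V K k) (a : K) :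
    ∃ g' : V K k ≃ₗ[K] V K k, cur g' = cur g ∧ g' (nuInf K k) = g (nu k a) := by
  refine ⟨(eqv _ (Ga_surj hk hq a)).trans g, ?_, ?_⟩
  swap
  · simp [eqv_apply, Ga_nuInf hk]
  ext P
  induction P using Projectivization.ind with
  | h v hv =>
    rw [mem_cur hk, mem_cur hk]
    simp only [LinearEquiv.trans_apply, eqv_apply, Ga_nuInf hk]
    constructor
    · rintro (⟨t, μ, h⟩ | ⟨μ, h⟩)
      · rcases eq_or_ne t 0 with rfl | ht
        · rw [Ga_nu_zero hk] at h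
          exact Or.inr ⟨μ, h⟩
        · rw [Ga_nu_ne hk a t ht, map_smul, smul_smul] at h
          exact Or.inl ⟨_, _, h⟩
      · exact Or.inl ⟨_, _, h⟩
    · rintro (⟨s, μ, h⟩ | ⟨μ, h⟩)
      · rcases eq_or_ne s a with rfl | hs
        · exact Or.inr ⟨μ, h⟩
        · have h1 : (s - a)⁻¹ ≠ 0 := inv_ne_zero (sub_ne_zero.mpr hs)
          refine Or.inl ⟨(s - a)⁻¹, μ * ((s - a)⁻¹ ^ (k - 1))⁻¹, ?_⟩
          rw [Ga_nu_ne hk a _ h1, inv_inv, sub_add_cancel, map_smul, smul_smul, mul_assoc,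
            inv_mul_cancel₀ (pow_ne_zero _ h1), mul_one]
          exact h
      · refine Or.inl ⟨0, μ, ?_⟩
        rw [Ga_nu_zero hk]
        exact h

/-- every point of a normal rational curve is the point at infinity of a parametrisation -/
theorem exists_param (hk : 0 < k) (hq : k ≤ Fintype.card K) (C : Set (ℙ K (V K k)))
    (hC : IsNRC C) (b : V K k) (hb : b ≠ 0) (hbC : Projectivization.mk K b hb ∈ C) :
    ∃ g : V K k ≃ₗ[K] V K k, C = cur g ∧ ∃ μ : K, μ ≠ 0 ∧ g (nuInf K k) = μ • b := by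
  obtain ⟨g, rfl⟩ := (isNRC_iff C).mp hC
  rw [mem_cur hk] at hbC
  rcases hbC with ⟨t, μ, h⟩ | ⟨μ, h⟩
  · obtain ⟨g', h1, h2⟩ := reparam hk hq g t
    have hμ : μ ≠ 0 := by
      rintro rfl
      exact hb (by simpa using h)
    refine ⟨g', h1.symm, μ⁻¹, inv_ne_zero hμ, ?_⟩
    rw [h2, h, smul_smul, inv_mul_cancel₀ hμ, one_smul]
  · have hμ : μ ≠ 0 := by
      rintro rfl
      exact hb (by simpa using h)
    refine ⟨g, rfl, μ⁻¹, inv_ne_zero hμ, ?_⟩
    rw [h, smul_smul, inv_mul_cancel₀ hμ, one_smul]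

end

end Pool.Agent.Helper98.NRC
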