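import Pool.Agent.Helper98.NRC.Curve

/-!
# Normal rational curves through the coordinate points and one more point
-/

open scoped LinearAlgebra.Projectivization
open Polynomial

namespace Pool.Agent.Helper98.NRC

noncomputable section

variable {K : Type*} [Field K] {k : ℕ}

/-- the point `t` of the curve `C_{b,c}` -/
def pv (b c : V K k) (t : K) : V K k := fun i => b i * ∏ j ∈ Finset.univ.erase i, (t - c j)

/-- the curve `C_{b,c}` -/
def Cbc (b c : V K k) : Set (ℙ K (V K k)) :=
  {P | (∃ t μ : K, P.rep = μ • pv b c t) ∨ ∃ μ : K, P.rep = μ • b}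

theorem mem_Cbc (b c : V K k) (v : V K k) (hv : v ≠ 0) :
    Projectivization.mk K v hv ∈ Cbc b c ↔ (∃ t μ : K, v = μ • pv b c t) ∨ ∃ μ : K, v = μ • b := by
  obtain ⟨a, ha⟩ := Projectivization.exists_smul_eq_mk_rep K v hv
  have ha' : v = a⁻¹ • (Projectivization.mk K v hv).rep := by rw [← ha, inv_smul_smul]
  have key : ∀ w : V K k, (∃ μ : K, (Projectivization.mk K v hv).rep = μ • w) ↔ ∃ μ : K, v = μ • w := by
    intro w
    constructor
    · rintro ⟨μ, h⟩
      refine ⟨((a⁻¹ : Kˣ) : K) * μ, ?_⟩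
      conv_lhs => rw [ha', h]
      rw [mul_smul]
      rfl
    · rintro ⟨μ, h⟩
      refine ⟨(a : K) * μ, ?_⟩
      rw [mul_smul, ← h]
      exact ha.symm
  simp only [Cbc, Set.mem_ofPred_eq]
  rw [key b]
  constructor
  · rintro (⟨t, h⟩ | h)
    · exact Or.inl ⟨t, (key _).mp h⟩
    · exact Or.inr h
  · rintro (⟨t, h⟩ | h)
    · exact Or.inl ⟨t, (key _).mpr h⟩
    · exact Or.inr h

/-- coordinate vectors -/
def ev (K : Type*) [Field K] {k : ℕ} (i : Fin k) : V K k := Pi.single i 1

theorem ev_ne (i : Fin k) : ev K i ≠ 0 := by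
  intro h
  have := congrFun h i
  simp [ev] at this

theorem pv_c (b c : V K k) (i : Fin k) :
    pv b c (c i) = (b i * ∏ j ∈ Finset.univ.erase i, (c i - c j)) • ev K i := by
  ext l
  simp only [pv, ev, Pi.smul_apply, smul_eq_mul, Pi.single_apply]
  split_ifs with h
  · rw [h, mul_one]
  · rw [mul_zero]
    have : ∏ j ∈ Finset.univ.erase l, (c i - c j) = 0 := by
      apply Finset.prod_eq_zero (i := i)
      · simp [Ne.symm h]
      · simp
    rw [this, mul_zero]

theorem prod_erase_ne (c : V K k) (hc : Function.Injective c) (i : Fin k) :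
    ∏ j ∈ Finset.univ.erase i, (c i - c j) ≠ 0 := by
  rw [Finset.prod_ne_zero_iff]
  intro j hj
  rw [sub_ne_zero]
  intro h
  exact (Finset.mem_erase.mp hj).1 (hc h).symm

/-- polynomials of `C_{b,c}` -/
def hp (b c : V K k) (i : Fin k) : K[X] := C (b i) * ∏ j ∈ Finset.univ.erase i, (X - C (c j))

theorem hp_eval (b c : V K k) (i : Fin k) (t : K) : (hp b c i).eval t = pv b c t i := by
  simp [hp, pv, eval_prod]

theorem prod_natDegree (c : V K k) (i : Fin k) :
    (∏ j ∈ Finset.univ.erase i, (X - C (c j))).natDegree = k - 1 := by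
  rw [natDegree_prod_of_monic _ _ (fun j _ => monic_X_sub_C _)]
  simp

theorem hp_natDegree (b c : V K k) (i : Fin k) : (hp b c i).natDegree ≤ k - 1 :=
  (natDegree_C_mul_le _ _).trans (prod_natDegree c i).le

theorem hp_coeff (b c : V K k) (i : Fin k) : (hp b c i).coeff (k - 1) = b i := by
  rw [hp, coeff_C_mul]
  have h := (monic_prod_of_monic (Finset.univ.erase i) (fun j => (X - C (c j)))
    (fun j _ => monic_X_sub_C _)).coeff_natDegree
  rw [prod_natDegree] at h
  rw [h, mul_one]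

theorem Lmap_hp_surj (hk : 0 < k) (b c : V K k) (hb : ∀ i, b i ≠ 0) (hc : Function.Injective c) :
    Function.Surjective (Lmap (hp b c)) := by
  refine surj_of _ fun l hl => ?_
  ext i
  simp only [LinearMap.coe_comp, Function.comp_apply, LinearMap.coe_single, LinearMap.zero_apply]
  have h1 := hl (nu k (c i))
  have h2 : Lmap (hp b c) (nu k (c i)) = pv b c (c i) := by
    ext j
    rw [Lmap_nu hk _ (hp_natDegree b c), hp_eval]
  rw [h2, pv_c, map_smul, smul_eq_mul] at h1
  exact (mul_eq_zero.mp h1).resolve_left (mul_ne_zero (hb i) (prod_erase_ne c hc i))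

/-- `C_{b,c}` is a normal rational curve -/
theorem Cbc_isNRC (hk : 0 < k) (b c : V K k) (hb : ∀ i, b i ≠ 0) (hc : Function.Injective c) :
    IsNRC (Cbc b c) := by
  refine (isNRC_iff _).mpr ⟨eqv _ (Lmap_hp_surj hk b c hb hc), ?_⟩
  have h1 : ∀ t, eqv _ (Lmap_hp_surj hk b c hb hc) (nu k t) = pv b c t := by
    intro t
    ext j
    rw [eqv_apply, Lmap_nu hk _ (hp_natDegree b c), hp_eval]
  have h2 : eqv _ (Lmap_hp_surj hk b c hb hc) (nuInf K k) = b := by
    ext j
    rw [eqv_apply, Lmap_nuInf hk, hp_coeff]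
  ext P
  induction P using Projectivization.ind with
  | h v hv =>
    rw [mem_Cbc, mem_cur hk]
    simp only [h1, h2]

theorem ev_mem_Cbc (b c : V K k) (hb : ∀ i, b i ≠ 0) (hc : Function.Injective c) (i : Fin k) :
    Projectivization.mk K (ev K i) (ev_ne i) ∈ Cbc b c := by
  rw [mem_Cbc]
  have h := mul_ne_zero (hb i) (prod_erase_ne c hc i)
  refine Or.inl ⟨c i, (b i * ∏ j ∈ Finset.univ.erase i, (c i - c j))⁻¹, ?_⟩
  rw [pv_c, smul_smul, inv_mul_cancel₀ h, one_smul]

theorem b_mem_Cbc (b c : V K k) (hb : b ≠ 0) : Projectivization.mk K b hb ∈ Cbc b c := by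
  rw [mem_Cbc]
  exact Or.inr ⟨1, by simp⟩

/-- `b` is not a multiple of a coordinate vector -/
def NotCoord (b : V K k) : Prop := ∀ (i : Fin k) (μ : K), b ≠ μ • ev K i

/-- normal form of a normal rational curve through the coordinate points and `b` -/
theorem normal_form [Fintype K] (hk : 0 < k) (hq : k ≤ Fintype.card K) (C : Set (ℙ K (V K k)))
    (hC : IsNRC C) (he : ∀ i, Projectivization.mk K (ev K i) (ev_ne i) ∈ C) (b : V K k) (hb : b ≠ 0)
    (hbC : Projectivization.mk K b hb ∈ C) (hbn : NotCoord b) :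
    (∀ i, b i ≠ 0) ∧ ∃ c : V K k, Function.Injective c ∧ C = Cbc b c := by
  obtain ⟨g, rfl, μ, hμ, hg⟩ := exists_param hk hq C hC b hb hbC
  have h1 : ∀ i, ∃ t : K, ∃ ν : K, ev K i = ν • g (nu k t) := by
    intro i
    have h := he i
    rw [mem_cur hk] at h
    rcases h with ⟨t, ν, h⟩ | ⟨ν, h⟩
    · exact ⟨t, ν, h⟩
    · exfalso
      rw [hg, smul_smul] at h
      have hν : ν * μ ≠ 0 := by
        intro h0
        rw [h0, zero_smul] at h
        exact ev_ne i h
      refine hbn i (ν * μ)⁻¹ ?_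
      rw [h, smul_smul, inv_mul_cancel₀ hν, one_smul]
  choose c ν hc using h1
  have hν : ∀ i, ν i ≠ 0 := by
    intro i h0
    have := hc i
    rw [h0, zero_smul] at this
    exact ev_ne i this
  have hg' : ∀ i, g (nu k (c i)) = (ν i)⁻¹ • ev K i := by
    intro i
    rw [hc i, smul_smul, inv_mul_cancel₀ (hν i), one_smul]
  have hcinj : Function.Injective c := by
    intro i j hij
    have h2 : (ν i)⁻¹ • ev K i = (ν j)⁻¹ • ev K j := by rw [← hg' i, ← hg' j, hij]
    by_contra hne
    have h3 := congrFun h2 i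
    simp [ev, hne, hν i] at h3
  -- coordinate functionals
  classical
  have hfp : ∀ i, fpoly ((LinearMap.proj i : V K k →ₗ[K] K).comp (g : V K k →ₗ[K] V K k)) =
      hp (μ • b) c i := by
    intro i
    refine eq_of_degree_sub_lt_of_eval_finset_eq ((Finset.univ.erase i).image c) ?_ ?_
    · rw [Finset.card_image_of_injective _ hcinj, Finset.card_erase_of_mem (Finset.mem_univ i),
        Finset.card_univ, Fintype.card_fin, degree_lt_iff_coeff_zero]
      intro n hn
      rw [coeff_sub]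
      rcases Nat.lt_or_ge (k - 1) n with h3 | h3
      · rw [coeff_eq_zero_of_natDegree_lt (lt_of_le_of_lt (fpoly_natDegree _) h3),
          coeff_eq_zero_of_natDegree_lt (lt_of_le_of_lt (hp_natDegree _ _ _) h3), sub_zero]
      · have : n = k - 1 := by omega
        rw [this, hp_coeff, fpoly_coeff_top hk]
        simp [hg]
    · intro t ht
      obtain ⟨j, hj, rfl⟩ := Finset.mem_image.mp ht
      have hji : j ≠ i := (Finset.mem_erase.mp hj).1
      rw [fpoly_eval, hp_eval, pv_c]
      simp [hg', ev, Pi.single_apply, Ne.symm hji]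
  have hgnu : ∀ t, g (nu k t) = μ • pv b c t := by
    intro t
    ext i
    have h2 : g (nu k t) i =
        ((LinearMap.proj i : V K k →ₗ[K] K).comp (g : V K k →ₗ[K] V K k)) (nu k t) := rfl
    rw [h2, ← fpoly_eval, hfp, hp_eval]
    simp [pv, mul_assoc]
  have hbi : ∀ i, b i ≠ 0 := by
    intro i h0
    have h2 : g (nu k (c i)) = 0 := by
      rw [hgnu, pv_c, h0]
      simp
    exact nu_ne hk (c i) (g.map_eq_zero_iff.mp h2)
  refine ⟨hbi, c, hcinj, ?_⟩
  ext P
  induction P using Projectivization.ind with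
  | h v hv =>
    rw [mem_Cbc, mem_cur hk]
    simp only [hgnu, hg, smul_smul]
    constructor
    · rintro (⟨t, ρ, h⟩ | ⟨ρ, h⟩)
      · exact Or.inl ⟨t, _, h⟩
      · exact Or.inr ⟨_, h⟩
    · rintro (⟨t, ρ, h⟩ | ⟨ρ, h⟩)
      · exact Or.inl ⟨t, ρ * μ⁻¹, by rw [mul_assoc, inv_mul_cancel₀ hμ, mul_one]; exact h⟩
      · exact Or.inr ⟨ρ * μ⁻¹, by rw [mul_assoc, inv_mul_cancel₀ hμ, mul_one]; exact h⟩

/-- affine changes of the parameter -/
theorem Cbc_affine (b c : V K k) (α β : K) (hα : α ≠ 0) :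
    Cbc b (fun i => α * c i + β) = Cbc b c := by
  have h : ∀ t, pv b (fun i => α * c i + β) (α * t + β) = α ^ (k - 1) • pv b c t := by
    intro t
    ext i
    simp only [pv, Pi.smul_apply, smul_eq_mul]
    have h2 : ∏ j ∈ Finset.univ.erase i, (α * t + β - (α * c j + β)) =
        α ^ (k - 1) * ∏ j ∈ Finset.univ.erase i, (t - c j) := by
      have h3 : (k - 1 : ℕ) = (Finset.univ.erase i).card := by
        rw [Finset.card_erase_of_mem (Finset.mem_univ i), Finset.card_univ, Fintype.card_fin]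
      rw [h3, ← Finset.prod_const, ← Finset.prod_mul_distrib]
      exact Finset.prod_congr rfl fun j _ => by ring
    rw [h2]
    ring
  ext P
  induction P using Projectivization.ind with
  | h v hv =>
    rw [mem_Cbc, mem_Cbc]
    constructor
    · rintro (⟨t, μ, h1⟩ | h1)
      · refine Or.inl ⟨(t - β) / α, μ * α ^ (k - 1), ?_⟩
        have h4 : t = α * ((t - β) / α) + β := by field_simp; ring
        rw [mul_smul, ← h, ← h4]
        exact h1
      · exact Or.inr h1
    · rintro (⟨t, μ, h1⟩ | h1)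
      · refine Or.inl ⟨α * t + β, μ * (α ^ (k - 1))⁻¹, ?_⟩
        rw [h, smul_smul, mul_assoc, inv_mul_cancel₀ (pow_ne_zero _ hα), mul_one]
        exact h1
      · exact Or.inr h1

/-- a point of `C_{b,c}` other than the coordinate points and `b` -/
theorem third_point (b c : V K k) (_hb : ∀ i, b i ≠ 0) (a : V K k) (ha : a ≠ 0)
    (haC : Projectivization.mk K a ha ∈ Cbc b c) (han : NotCoord a) (hab : ∀ μ : K, a ≠ μ • b) :
    ∃ t s : K, s ≠ 0 ∧ (∀ i, a i ≠ 0) ∧ ∀ i, b i / a i = s * (t - c i) := by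
  rw [mem_Cbc] at haC
  rcases haC with ⟨t, μ, h⟩ | ⟨μ, h⟩
  swap
  · exact absurd h (hab μ)
  have ht : ∀ i, t - c i ≠ 0 := by
    intro i h0
    have : t = c i := by linear_combination h0
    rw [this, pv_c, smul_smul] at h
    exact han i _ h
  have hμ : μ ≠ 0 := by
    rintro rfl
    exact ha (by simpa using h)
  set Q : K := ∏ j : Fin k, (t - c j) with hQ
  have hQ0 : Q ≠ 0 := Finset.prod_ne_zero_iff.mpr fun j _ => ht j
  have h1 : ∀ i, a i * (t - c i) = μ * b i * Q := by
    intro i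
    rw [h, Pi.smul_apply, smul_eq_mul, pv, hQ, ← Finset.mul_prod_erase _ _ (Finset.mem_univ i)]
    ring
  have ha0 : ∀ i, a i ≠ 0 := by
    intro i h0
    have := h1 i
    rw [h0, zero_mul] at this
    exact mul_ne_zero (mul_ne_zero hμ (_hb i)) hQ0 this.symm
  refine ⟨t, (μ * Q)⁻¹, inv_ne_zero (mul_ne_zero hμ hQ0), ha0, fun i => ?_⟩
  have := h1 i
  have h3 := ha0 i
  field_simp
  linear_combination -this

/-- conversely, such points are on the curve -/
theorem mem_of_formula (b c : V K k) (hb : ∀ i, b i ≠ 0) (a : V K k) (ha : a ≠ 0) (t s : K)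
    (h0 : ∀ i, a i ≠ 0) (h : ∀ i, b i / a i = s * (t - c i)) :
    Projectivization.mk K a ha ∈ Cbc b c := by
  rw [mem_Cbc]
  have ht : ∀ i, s * (t - c i) ≠ 0 := fun i => by
    rw [← h i]
    exact div_ne_zero (hb i) (h0 i)
  rcases isEmpty_or_nonempty (Fin k) with he | ⟨⟨i0⟩⟩
  · exact absurd (Subsingleton.elim a 0) ha
  have hs : s ≠ 0 := left_ne_zero_of_mul (ht i0)
  have ht' : ∀ i, t - c i ≠ 0 := fun i => right_ne_zero_of_mul (ht i)
  set Q : K := ∏ j : Fin k, (t - c j) with hQ
  have hQ0 : Q ≠ 0 := Finset.prod_ne_zero_iff.mpr fun j _ => ht' j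
  refine Or.inl ⟨t, (s * Q)⁻¹, ?_⟩
  ext i
  rw [Pi.smul_apply, smul_eq_mul, pv]
  have h1 : Q = (t - c i) * ∏ j ∈ Finset.univ.erase i, (t - c j) := by
    rw [hQ, ← Finset.mul_prod_erase _ _ (Finset.mem_univ i)]
  have h2 := h i
  have h3 := h0 i
  rw [div_eq_iff h3] at h2
  have h4 := ht' i
  have h5 : ∏ j ∈ Finset.univ.erase i, (t - c j) ≠ 0 := by
    intro h6
    rw [h6, mul_zero] at h1
    exact hQ0 h1
  rw [h1, h2]
  field_simp

end

end Pool.Agent.Helper98.NRC
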