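import Pool.Agent.Helper98.NRC.NonRat

/-!
# Non-rational arcs with at most `⌊q/2⌋ + 2` points
-/

open scoped LinearAlgebra.Projectivization
open Polynomial

namespace Pool.Agent.Helper98.NRC

noncomputable section

variable {K : Type*} [Field K] [Fintype K] {k : ℕ}

theorem nonrat_even (h3 : 3 ≤ k) (hq : k < Fintype.card K) (h2 : (2 : K) = 0) (n : ℕ)
    (hn : k + 3 ≤ n) (hn2 : n ≤ Fintype.card K / 2 + 2) :
    ∃ A : Set (ℙ K (V K k)), IsArc A ∧ A.ncard = n ∧ ¬ ∃ C, IsNRC C ∧ A ⊆ C := by
  classical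
  set H : Finset K := Finset.univ.image (fun x : K => x ^ 2 + x) with hH
  have hadd : ∀ x ∈ H, ∀ y ∈ H, x + y ∈ H := by
    intro x hx y hy
    obtain ⟨a, -, rfl⟩ := Finset.mem_image.mp hx
    obtain ⟨b, -, rfl⟩ := Finset.mem_image.mp hy
    refine Finset.mem_image.mpr ⟨a + b, Finset.mem_univ _, ?_⟩
    linear_combination a * b * h2
  have hzero : (0 : K) ∈ H := Finset.mem_image.mpr ⟨0, Finset.mem_univ _, by ring⟩
  have hsum : ∀ T : Finset K, T ⊆ H → ∑ t ∈ T, t ∈ H := by
    intro T
    induction T using Finset.induction_on with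
    | empty => intro _; simpa using hzero
    | insert a s ha ih =>
      intro h
      rw [Finset.sum_insert ha]
      exact hadd _ (h (Finset.mem_insert_self _ _)) _ (ih ((Finset.subset_insert _ _).trans h))
  have hlt : H.card < Fintype.card K := by
    rw [← Finset.card_univ]
    refine lt_of_le_of_ne Finset.card_image_le ?_
    intro h
    rw [hH, Finset.card_image_iff] at h
    have h01 : (0 : K) = 1 := h (Finset.mem_coe.mpr (Finset.mem_univ _))
      (Finset.mem_coe.mpr (Finset.mem_univ _)) (by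
        simp only
        linear_combination -h2)
    exact zero_ne_one h01
  have hex : ∃ δ : K, δ ∉ H := by
    by_contra hne
    push Not at hne
    have : H = Finset.univ := Finset.eq_univ_iff_forall.mpr hne
    rw [this, Finset.card_univ] at hlt
    exact lt_irrefl _ hlt
  obtain ⟨δ, hδ⟩ := hex
  have hcard : Fintype.card K ≤ 2 * H.card := by
    rw [← Finset.card_univ]
    refine Finset.card_le_mul_card_image _ 2 ?_
    intro y hy
    obtain ⟨b, -, rfl⟩ := Finset.mem_image.mp hy
    have : (Finset.univ.filter fun x : K => x ^ 2 + x = b ^ 2 + b) ⊆ {b, -1 - b} := by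
      intro x hx
      have h := (Finset.mem_filter.mp hx).2
      have h4 : (x - b) * (x - (-1 - b)) = 0 := by linear_combination h
      rcases mul_eq_zero.mp h4 with h5 | h5
      · simp [sub_eq_zero.mp h5]
      · simp [sub_eq_zero.mp h5]
    exact (Finset.card_le_card this).trans Finset.card_le_two
  exact nonrat_sum h3 hq δ H (fun T hT _ h => hδ (h ▸ hsum T hT)) n hn (by omega)

theorem nonrat_odd (h3 : 3 ≤ k) (hq : k < Fintype.card K) (h2 : (2 : K) ≠ 0) (n : ℕ)
    (hn : k + 3 ≤ n) (hn2 : n ≤ Fintype.card K / 2 + 2) :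
    ∃ A : Set (ℙ K (V K k)), IsArc A ∧ A.ncard = n ∧ ¬ ∃ C, IsNRC C ∧ A ⊆ C := by
  classical
  set S : Finset K := Finset.univ.image (fun x : K => x ^ 2) with hS
  have hzero : (0 : K) ∈ S := Finset.mem_image.mpr ⟨0, Finset.mem_univ _, by ring⟩
  have hone : (1 : K) ∈ S := Finset.mem_image.mpr ⟨1, Finset.mem_univ _, by ring⟩
  have hmul : ∀ x ∈ S, ∀ y ∈ S, x * y ∈ S := by
    intro x hx y hy
    obtain ⟨a, -, rfl⟩ := Finset.mem_image.mp hx
    obtain ⟨b, -, rfl⟩ := Finset.mem_image.mp hy
    exact Finset.mem_image.mpr ⟨a * b, Finset.mem_univ _, by ring⟩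
  have hprod : ∀ T : Finset K, T ⊆ S → ∏ t ∈ T, t ∈ S := by
    intro T
    induction T using Finset.induction_on with
    | empty => intro _; simpa using hone
    | insert a s ha ih =>
      intro h
      rw [Finset.prod_insert ha]
      exact hmul _ (h (Finset.mem_insert_self _ _)) _ (ih ((Finset.subset_insert _ _).trans h))
  have hlt : S.card < Fintype.card K := by
    rw [← Finset.card_univ]
    refine lt_of_le_of_ne Finset.card_image_le ?_
    intro h
    rw [hS, Finset.card_image_iff] at h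
    have h01 : (1 : K) = -1 := h (Finset.mem_coe.mpr (Finset.mem_univ _))
      (Finset.mem_coe.mpr (Finset.mem_univ _)) (by simp)
    apply h2
    linear_combination h01
  have hex : ∃ c : K, c ∉ S := by
    by_contra hne
    push Not at hne
    have : S = Finset.univ := Finset.eq_univ_iff_forall.mpr hne
    rw [this, Finset.card_univ] at hlt
    exact lt_irrefl _ hlt
  obtain ⟨c, hc⟩ := hex
  have hc0 : c ≠ 0 := fun h => hc (h ▸ hzero)
  have hcard : Fintype.card K - 1 ≤ 2 * (S.card - 1) := by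
    have h4 : (Finset.univ.erase (0 : K)).card = Fintype.card K - 1 := by
      rw [Finset.card_erase_of_mem (Finset.mem_univ _), Finset.card_univ]
    rw [← h4]
    have h5 : ((Finset.univ.erase (0 : K)).image (fun x : K => x ^ 2)) ⊆ S.erase 0 := by
      intro y hy
      obtain ⟨x, hx, rfl⟩ := Finset.mem_image.mp hy
      refine Finset.mem_erase.mpr ⟨pow_ne_zero _ (Finset.mem_erase.mp hx).1, ?_⟩
      exact Finset.mem_image.mpr ⟨x, Finset.mem_univ _, rfl⟩
    have h6 := Finset.card_le_card h5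
    rw [Finset.card_erase_of_mem hzero] at h6
    refine le_trans (Finset.card_le_mul_card_image (f := fun x : K => x ^ 2) _ 2 ?_)
      (Nat.mul_le_mul_left 2 h6)
    intro y hy
    obtain ⟨b, -, rfl⟩ := Finset.mem_image.mp hy
    have : ((Finset.univ.erase (0 : K)).filter fun x : K => x ^ 2 = b ^ 2) ⊆ {b, -b} := by
      intro x hx
      have h := (Finset.mem_filter.mp hx).2
      have h4 : (x - b) * (x - (- b)) = 0 := by linear_combination h
      rcases mul_eq_zero.mp h4 with h5 | h5
      · simp [sub_eq_zero.mp h5]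
      · simp [sub_eq_zero.mp h5]
    exact (Finset.card_le_card this).trans Finset.card_le_two
  have hpos : 0 < S.card := Finset.card_pos.mpr ⟨0, hzero⟩
  exact nonrat_prod h3 hq c hc0 S (fun T hT _ h => hc (h ▸ hprod T hT)) n hn (by omega)

/-- there are non-rational `n`-arcs for `k + 3 ≤ n ≤ ⌊q/2⌋ + 2` -/
theorem nonrat_half (h3 : 3 ≤ k) (hq : k < Fintype.card K) (n : ℕ)
    (hn : k + 3 ≤ n) (hn2 : n ≤ Fintype.card K / 2 + 2) :
    ∃ A : Set (ℙ K (V K k)), IsArc A ∧ A.ncard = n ∧ ¬ ∃ C, IsNRC C ∧ A ⊆ C := by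
  by_cases h2 : (2 : K) = 0
  · exact nonrat_even h3 hq h2 n hn hn2
  · exact nonrat_odd h3 hq h2 n hn hn2

/-- planes of even order -/
theorem nonrat_plane (hq : 3 < Fintype.card K) (h2 : (2 : K) = 0) (n : ℕ)
    (hn : 6 ≤ n) (hn2 : n ≤ Fintype.card K + 2) :
    ∃ A : Set (ℙ K (V K 3)), IsArc A ∧ A.ncard = n ∧ ¬ ∃ C, IsNRC C ∧ A ⊆ C := by
  classical
  refine nonrat_sum (le_refl 3) hq 0 Finset.univ ?_ n hn (by rwa [Finset.card_univ])
  intro T _ hT h
  obtain ⟨a, b, hab, rfl⟩ := Finset.card_eq_two.mp hT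
  rw [Finset.sum_pair hab] at h
  apply hab
  linear_combination h - b * h2


/-- even order: `k + 3` points -/
theorem nonrat_even_k3 (h3 : 3 ≤ k) (hq : k < Fintype.card K) (h2 : (2 : K) = 0) :
    ∃ A : Set (ℙ K (V K k)), IsArc A ∧ A.ncard = k + 3 ∧ ¬ ∃ C, IsNRC C ∧ A ⊆ C := by
  classical
  obtain ⟨S, -, hSc⟩ := Finset.exists_subset_card_eq (s := (Finset.univ : Finset K)) (n := k + 1)
    (by rw [Finset.card_univ]; omega)
  refine nonrat_sum h3 hq (∑ t ∈ S, t) S ?_ (k + 3) le_rfl (by omega)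
  intro T hT hTc h
  have h4 : (S \ T).card = 2 := by
    rw [Finset.card_sdiff_of_subset hT]
    omega
  obtain ⟨a, b, hab, hST⟩ := Finset.card_eq_two.mp h4
  have h5 := Finset.sum_sdiff (f := fun t => t) hT
  rw [hST, Finset.sum_pair hab, h] at h5
  apply hab
  linear_combination h5 - b * h2

/-- even order in terms of the cardinality -/
theorem two_eq_zero_of_even (h : Even (Fintype.card K)) : (2 : K) = 0 := by
  obtain ⟨p, hp⟩ := CharP.exists K
  obtain ⟨n, hpp, hn⟩ := FiniteField.card K p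
  rw [hn, Nat.even_pow] at h
  have h2 : p = 2 := (Nat.Prime.even_iff hpp).mp h.1
  subst h2
  exact_mod_cast CharP.cast_eq_zero K 2

/-- no `n`-arc has more than `q + k` points (crude bound used only for existence of the threshold) -/
theorem exists_threshold (h3 : 3 ≤ k) (hq : k < Fintype.card K) :
    ∃ N, k + 3 ≤ N ∧ ∀ n, k ≤ n →
      ((∀ A : Set (ℙ K (V K k)), IsArc A → A.ncard = n → ∃ C, IsNRC C ∧ A ⊆ C) ↔
        n ≤ k + 2 ∨ N ≤ n) := by
  classical
  have hex : ∃ N, k + 3 ≤ N ∧ ∀ A : Set (ℙ K (V K k)), IsArc A → A.ncard = N →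
      ∃ C, IsNRC C ∧ A ⊆ C := by
    refine ⟨k + 3 + Nat.card (ℙ K (V K k)), by omega, fun A _ hA => ?_⟩
    have := Set.ncard_le_card A
    omega
  refine ⟨Nat.find hex, (Nat.find_spec hex).1, fun n hn => ?_⟩
  have hup : ∀ m, Nat.find hex ≤ m → ∀ A : Set (ℙ K (V K k)), IsArc A → A.ncard = m →
      ∃ C, IsNRC C ∧ A ⊆ C := by
    intro m hm
    induction m, hm using Nat.le_induction with
    | base => exact (Nat.find_spec hex).2
    | succ m hm ih =>
      intro A hA hAm
      exact closure_up h3 hq m ((Nat.find_spec hex).1.trans hm) ih A hA hAm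
  constructor
  · intro h
    by_contra hne
    push Not at hne
    exact Nat.find_min hex hne.2 ⟨by omega, h⟩
  · rintro (h | h)
    · intro A hA hAn
      exact small_rational h3 hq A hA (by omega) (by omega)
    · exact hup n h

end

end Pool.Agent.Helper98.NRC
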