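import Pool.Agent.Helper98.NRC.Main

/-!
# Non-rational arcs with at most `⌊q/2⌋ + 2` points
-/

open scoped LinearAlgebra.Projectivization
open Polynomial

namespace Pool.Agent.Helper98.NRC

noncomputable section

variable {K : Type*} [Field K] {k : ℕ}

/-- independence criterion -/
theorem indep_of (p : Fin k → ℙ K (V K k))
    (h : ∀ l : V K k →ₗ[K] K, (∀ i, l (p i).rep = 0) → l = 0) : Projectivization.Independent p := by
  rw [Projectivization.independent_iff]
  apply linearIndependent_of_top_le_span_of_card_eq_finrank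
  · rw [top_le_iff]
    by_contra hne
    obtain ⟨f, hf, hle⟩ := Submodule.exists_le_ker_of_lt_top _ (lt_top_iff_ne_top.mpr hne)
    refine hf (h f fun i => ?_)
    exact hle (Submodule.subset_span ⟨i, rfl⟩)
  · simp

theorem l_rep (l : V K k →ₗ[K] K) (v : V K k) (hv : v ≠ 0)
    (h : l (Projectivization.mk K v hv).rep = 0) : l v = 0 := by
  obtain ⟨a, ha⟩ := Projectivization.exists_smul_eq_mk_rep K v hv
  rw [← ha, Units.smul_def, map_smul, smul_eq_mul] at h
  exact (mul_eq_zero.mp h).resolve_left a.ne_zero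

/-- vectors of codes -/
def cv (P : V K k) : Option (Option K) → V K k
  | none => P
  | some none => nuInf K k
  | some (some t) => nu k t

theorem cv_ne (hk : 0 < k) (P : V K k) (hP : P ≠ 0) (x : Option (Option K)) : cv P x ≠ 0 := by
  rcases x with _ | _ | t
  · exact hP
  · exact nuInf_ne hk
  · exact nu_ne hk t

/-- points of codes -/
def cp (hk : 0 < k) (P : V K k) (hP : P ≠ 0) (x : Option (Option K)) : ℙ K (V K k) :=
  Projectivization.mk K (cv P x) (cv_ne hk P hP x)

/-- codes of a family `T` of parameters -/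
def emb (T : Finset K) : Finset (Option (Option K)) :=
  T.map (Function.Embedding.some.trans Function.Embedding.some)

theorem mem_emb (T : Finset K) (x : Option (Option K)) : x ∈ emb T ↔ ∃ t ∈ T, x = some (some t) := by
  simp [emb, eq_comm]

theorem card_emb (T : Finset K) : (emb T).card = T.card := by simp [emb]

theorem isArc_codes [DecidableEq K] (hk : 2 ≤ k) (P : V K k) (hP : P ≠ 0)
    (X0 : Finset (Option (Option K))) (S : Finset K) (hS : ∀ t, some (some t) ∈ X0 → t ∈ S)
    (h1 : ∀ l : V K k →ₗ[K] K, ∀ T ⊆ S, T.card = k - 1 → (∀ t ∈ T, l (nu k t) = 0) → l P = 0 → l = 0)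
    (h2 : some none ∈ X0 → ∀ l : V K k →ₗ[K] K, ∀ T ⊆ S, T.card = k - 2 → (∀ t ∈ T, l (nu k t) = 0) →
      l (nuInf K k) = 0 → l P = 0 → l = 0) :
    IsArc (cp (by omega) P hP '' (X0 : Set (Option (Option K)))) := by
  intro p hp hpA
  choose x hx hxp using hpA
  have hxinj : Function.Injective x := fun i j hij => hp (by rw [← hxp i, ← hxp j, hij])
  refine indep_of p fun l hl => ?_
  have hlx : ∀ i, l (cv P (x i)) = 0 := by
    intro i
    apply l_rep l _ (cv_ne (by omega) P hP (x i))
    have := hl i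
    rw [← hxp i] at this
    exact this
  set X : Finset (Option (Option K)) := Finset.univ.image x with hX
  have hXc : X.card = k := by
    rw [hX, Finset.card_image_of_injective _ hxinj, Finset.card_univ, Fintype.card_fin]
  have hlX : ∀ y ∈ X, l (cv P y) = 0 := by
    intro y hy
    obtain ⟨i, -, rfl⟩ := Finset.mem_image.mp hy
    exact hlx i
  have hXX0 : ∀ y ∈ X, y ∈ X0 := by
    intro y hy
    obtain ⟨i, -, rfl⟩ := Finset.mem_image.mp hy
    exact hx i
  set T : Finset K := S.filter (fun t => some (some t) ∈ X) with hT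
  have hTl : ∀ t ∈ T, l (nu k t) = 0 := fun t ht => hlX _ (Finset.mem_filter.mp ht).2
  have hTS : T ⊆ S := Finset.filter_subset _ _
  have hcov : X ⊆ (X.filter (· = none)) ∪ (X.filter (· = some none)) ∪ emb T := by
    intro y hy
    rcases y with _ | _ | t
    · simp [hy]
    · simp [hy]
    · rw [Finset.mem_union]
      right
      rw [mem_emb]
      exact ⟨t, Finset.mem_filter.mpr ⟨hS t (hXX0 _ hy), hy⟩, rfl⟩
  have hcard := (Finset.card_le_card hcov).trans
    ((Finset.card_union_le _ _).trans (Nat.add_le_add_right (Finset.card_union_le _ _) _))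
  rw [hXc, card_emb] at hcard
  have c1 : (X.filter (· = none)).card ≤ 1 :=
    Finset.card_le_one.mpr (by intro a ha b hb; rw [(Finset.mem_filter.mp ha).2, (Finset.mem_filter.mp hb).2])
  have c2 : (X.filter (· = some none)).card ≤ 1 :=
    Finset.card_le_one.mpr (by intro a ha b hb; rw [(Finset.mem_filter.mp ha).2, (Finset.mem_filter.mp hb).2])
  by_cases d1 : none ∈ X <;> by_cases d2 : some none ∈ X
  · obtain ⟨T', hT', hTc⟩ := Finset.exists_subset_card_eq (s := T) (n := k - 2) (by omega)
    exact h2 (hXX0 _ d2) l T' (hT'.trans hTS) hTc (fun t ht => hTl t (hT' ht)) (hlX _ d2) (hlX _ d1)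
  · have c3 : (X.filter (· = some none)).card = 0 := by
      rw [Finset.card_eq_zero, Finset.filter_eq_empty_iff]
      rintro y hy rfl
      exact d2 hy
    obtain ⟨T', hT', hTc⟩ := Finset.exists_subset_card_eq (s := T) (n := k - 1) (by omega)
    exact h1 l T' (hT'.trans hTS) hTc (fun t ht => hTl t (hT' ht)) (hlX _ d1)
  · have c3 : (X.filter (· = none)).card = 0 := by
      rw [Finset.card_eq_zero, Finset.filter_eq_empty_iff]
      rintro y hy rfl
      exact d1 hy
    exact l_zero_of_card' l T (by omega) (by omega) hTl (hlX _ d2)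
  · have c3 : (X.filter (· = none)).card = 0 := by
      rw [Finset.card_eq_zero, Finset.filter_eq_empty_iff]
      rintro y hy rfl
      exact d1 hy
    have c4 : (X.filter (· = some none)).card = 0 := by
      rw [Finset.card_eq_zero, Finset.filter_eq_empty_iff]
      rintro y hy rfl
      exact d2 hy
    exact l_zero_of_card l T (by omega) (by omega) hTl

/-- the polynomial of a functional vanishing on `k - 1` parameters -/
theorem fpoly_prod (hk : 0 < k) (l : V K k →ₗ[K] K) (T : Finset K) (hT : T.card = k - 1)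
    (h : ∀ t ∈ T, l (nu k t) = 0) : fpoly l = C (l (nuInf K k)) * ∏ t ∈ T, (X - C t) := by
  have hd : (∏ t ∈ T, (X - C t)).natDegree = k - 1 := by
    rw [natDegree_prod_of_monic _ _ (fun j _ => monic_X_sub_C _)]
    simp [hT]
  have hc : (∏ t ∈ T, (X - C t)).coeff (k - 1) = 1 := by
    have h := (monic_prod_of_monic T (fun j => (X - C j)) (fun j _ => monic_X_sub_C _)).coeff_natDegree
    rwa [hd] at h
  refine eq_of_degree_sub_lt_of_eval_finset_eq T ?_ ?_
  · rw [hT, degree_lt_iff_coeff_zero]
    intro n hn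
    rw [coeff_sub, coeff_C_mul]
    rcases Nat.lt_or_ge (k - 1) n with h3 | h3
    · rw [coeff_eq_zero_of_natDegree_lt (lt_of_le_of_lt (fpoly_natDegree _) h3),
        coeff_eq_zero_of_natDegree_lt (hd.trans_lt h3)]
      ring
    · have : n = k - 1 := by omega
      rw [this, hc, fpoly_coeff_top hk]
      ring
  · intro t ht
    rw [fpoly_eval, h t ht, eval_mul, eval_prod, Finset.prod_eq_zero ht (by simp)]
    ring

theorem cp_injective (h3 : 3 ≤ k) (P : V K k) (hP : P ≠ 0)
    (hn : Projectivization.mk K P hP ∉ stdNRC K k) :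
    Function.Injective (cp (by omega) P hP) := by
  have hk : 0 < k := by omega
  have hstd : ∀ x : Option K, cp hk P hP (some x) = par h3 (LinearEquiv.refl K (V K k)) x := by
    intro x
    rcases x with _ | t <;> rfl
  have hmem : ∀ x : Option K, cp hk P hP (some x) ∈ stdNRC K k := by
    intro x
    rcases x with _ | t
    · exact Or.inr ⟨nuInf_ne hk, rfl⟩
    · exact Or.inl ⟨t, nu_ne hk t, rfl⟩
  intro x y hxy
  rcases x with _ | x <;> rcases y with _ | y
  · rfl
  · have h := hmem y
    rw [← hxy] at h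
    exact absurd h hn
  · have h := hmem x
    rw [hxy] at h
    exact absurd h hn
  · rw [hstd, hstd] at hxy
    rw [par_injective h3 _ hxy]

theorem stdNRC_isNRC : IsNRC (stdNRC K k) := by
  refine (isNRC_iff _).mpr ⟨LinearEquiv.refl K (V K k), ?_⟩
  rw [cur]
  have : mp (LinearEquiv.refl K (V K k)) = id := by
    funext P
    induction P using Projectivization.ind with
    | h v hv => rfl
  rw [this, Set.image_id]

variable [Fintype K]

/-- a non-rational arc -/
theorem nonrat (h3 : 3 ≤ k) (hq : k < Fintype.card K) (P : V K k) (hP : P ≠ 0)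
    (hn : Projectivization.mk K P hP ∉ stdNRC K k) (X0 : Finset (Option (Option K)))
    (hnone : none ∈ X0) (hcard : k + 3 ≤ X0.card)
    (harc : IsArc (cp (by omega) P hP '' (X0 : Set (Option (Option K))))) :
    ∃ A : Set (ℙ K (V K k)), IsArc A ∧ A.ncard = X0.card ∧ ¬ ∃ C, IsNRC C ∧ A ⊆ C := by
  classical
  have hk : 0 < k := by omega
  have hinj := cp_injective h3 P hP hn
  refine ⟨_, harc, by rw [Set.ncard_image_of_injective _ hinj, Set.ncard_coe_finset], ?_⟩
  rintro ⟨C, hC, hAC⟩
  have h1 := NN_subsingleton h3 hq (cp hk P hP '' ((X0.erase none : Finset _) : Set (Option (Option K))))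
    (arc_subset _ _ harc (Set.image_mono (by simp))) (by
      rw [Set.ncard_image_of_injective _ hinj, Set.ncard_coe_finset, Finset.card_erase_of_mem hnone]
      omega)
  rw [Set.ncard_le_one (Set.toFinite _)] at h1
  have h2 : C = stdNRC K k := by
    apply h1
    · exact ⟨hC, (Set.image_mono (by simp)).trans hAC⟩
    · refine ⟨stdNRC_isNRC, ?_⟩
      rintro Q ⟨x, hx, rfl⟩
      rcases x with _ | _ | t
      · simp at hx
      · exact Or.inr ⟨nuInf_ne hk, rfl⟩
      · exact Or.inl ⟨t, nu_ne hk t, rfl⟩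
  apply hn
  rw [← h2]
  exact hAC ⟨none, hnone, rfl⟩


/-- sum type: `P = δ e₀ + e₁` -/
theorem nonrat_sum (h3 : 3 ≤ k) (hq : k < Fintype.card K) (δ : K) (S : Finset K)
    (hS : ∀ T ⊆ S, T.card = k - 1 → ∑ t ∈ T, t ≠ δ) (n : ℕ) (hn : k + 3 ≤ n) (hn2 : n ≤ S.card + 2) :
    ∃ A : Set (ℙ K (V K k)), IsArc A ∧ A.ncard = n ∧ ¬ ∃ C, IsNRC C ∧ A ⊆ C := by
  classical
  have hk : 0 < k := by omega
  set i0 : Fin k := ⟨0, by omega⟩ with hi0
  set i1 : Fin k := ⟨1, by omega⟩ with hi1
  set il : Fin k := ⟨k - 1, by omega⟩ with hil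
  have h10 : i1 ≠ i0 := by simp [hi0, hi1]
  have h01 : i0 ≠ i1 := h10.symm
  have hl0 : il ≠ i0 := by
    simp only [hi0, hil, ne_eq, Fin.mk.injEq]; omega
  have hl1 : il ≠ i1 := by
    simp only [hi1, hil, ne_eq, Fin.mk.injEq]; omega
  set P : V K k := δ • ev K i0 + ev K i1 with hPdef
  have hP1 : P i1 = 1 := by simp [hPdef, ev, h10]
  have hPl : P il = 0 := by simp [hPdef, ev, hl0, hl1]
  have hP : P ≠ 0 := by
    intro h
    rw [h] at hP1
    simp at hP1
  have hPn : Projectivization.mk K P hP ∉ stdNRC K k := by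
    rintro (⟨t, h, he⟩ | ⟨h, he⟩)
    · rw [Projectivization.mk_eq_mk_iff'] at he
      obtain ⟨a, ha⟩ := he
      have e1 := congrFun ha il
      rw [hPl] at e1
      have e2 : nu k t il = 1 := by simp [nu, hil]
      rw [Pi.smul_apply, e2, smul_eq_mul, mul_one] at e1
      rw [e1, zero_smul] at ha
      exact hP ha.symm
    · rw [Projectivization.mk_eq_mk_iff'] at he
      obtain ⟨a, ha⟩ := he
      have e1 := congrFun ha i1
      rw [hP1] at e1
      simp [nuInf, hi1] at e1
  have hlP : ∀ l : V K k →ₗ[K] K, l P = δ * l (nuInf K k) + (fpoly l).coeff (k - 2) := by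
    intro l
    have e1 : (fpoly l).coeff (k - 2) = l (ev K i1) := fpoly_coeff l i1
    rw [hPdef, map_add, map_smul, smul_eq_mul, e1, nuInf_eq hk]
    rfl
  obtain ⟨T0, hT0, hT0c⟩ := Finset.exists_subset_card_eq (s := S) (n := n - 2) (by omega)
  have key : IsArc (cp (by omega) P hP '' ((insert none (insert (some none) (emb T0)) :
      Finset (Option (Option K))) : Set (Option (Option K)))) := by
    refine isArc_codes (by omega) P hP _ S ?_ ?_ ?_
    · intro t ht
      simp only [Finset.mem_insert, reduceCtorEq, false_or, Option.some.injEq, mem_emb] at ht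
      obtain ⟨s, hs, hst⟩ := ht
      rw [hst]
      exact hT0 hs
    · intro l T hT hTc hl hlP0
      have h1 := fpoly_prod hk l T hTc hl
      rw [hlP, h1, coeff_C_mul] at hlP0
      have h4 := prod_X_sub_C_coeff_card_pred T (fun t => t) (by omega)
      rw [hTc, show k - 1 - 1 = k - 2 by omega] at h4
      rw [h4] at hlP0
      have h5 : l (nuInf K k) * (δ - ∑ t ∈ T, t) = 0 := by linear_combination hlP0
      have h6 : l (nuInf K k) = 0 :=
        (mul_eq_zero.mp h5).resolve_right (sub_ne_zero.mpr (hS T hT hTc).symm)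
      exact l_zero_of_card' l T hTc.ge hk hl h6
    · intro _ l T hT hTc hl hinf hlP0
      rw [hlP, hinf, mul_zero, zero_add] at hlP0
      apply fpoly_zero
      refine eq_zero_of_degree_lt_of_eval_finset_eq_zero T ?_ (fun t ht => ?_)
      · rw [Polynomial.degree_lt_iff_coeff_zero]
        intro m hm
        rcases Nat.lt_or_ge (k - 1) m with h4 | h4
        · exact coeff_eq_zero_of_natDegree_lt (lt_of_le_of_lt (fpoly_natDegree l) h4)
        · rcases (by omega : m = k - 1 ∨ m = k - 2) with h5 | h5
          · rw [h5, fpoly_coeff_top hk, hinf]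
          · rw [h5, hlP0]
      · rw [fpoly_eval]; exact hl t ht
  have hc : (insert none (insert (some none) (emb T0)) : Finset (Option (Option K))).card = n := by
    rw [Finset.card_insert_of_notMem, Finset.card_insert_of_notMem, card_emb, hT0c]
    · omega
    · simp [mem_emb]
    · simp [mem_emb]
  obtain ⟨A, h1, h2, h4⟩ := nonrat h3 hq P hP hPn _ (Finset.mem_insert_self _ _) (by rw [hc]; exact hn) key
  exact ⟨A, h1, by rw [h2, hc], h4⟩

/-- product type: `P = e₀ + a e_{k-1}` -/
theorem nonrat_prod (h3 : 3 ≤ k) (hq : k < Fintype.card K) (c : K) (hc0 : c ≠ 0) (S : Finset K)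
    (hS : ∀ T ⊆ S, T.card = k - 1 → ∏ t ∈ T, t ≠ c) (n : ℕ) (hn : k + 3 ≤ n) (hn2 : n ≤ S.card + 1) :
    ∃ A : Set (ℙ K (V K k)), IsArc A ∧ A.ncard = n ∧ ¬ ∃ C, IsNRC C ∧ A ⊆ C := by
  classical
  have hk : 0 < k := by omega
  set i0 : Fin k := ⟨0, by omega⟩ with hi0
  set im : Fin k := ⟨k - 2, by omega⟩ with him
  set il : Fin k := ⟨k - 1, by omega⟩ with hil
  have hl0 : il ≠ i0 := by
    simp only [hi0, hil, ne_eq, Fin.mk.injEq]; omega
  have hm0 : im ≠ i0 := by
    simp only [hi0, him, ne_eq, Fin.mk.injEq]; omega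
  have hml : im ≠ il := by
    simp only [him, hil, ne_eq, Fin.mk.injEq]; omega
  set a : K := (-1) ^ k * c⁻¹ with ha
  have ha0 : a ≠ 0 := mul_ne_zero (pow_ne_zero _ (by simp)) (inv_ne_zero hc0)
  set P : V K k := ev K i0 + a • ev K il with hPdef
  have hP0 : P i0 = 1 := by simp [hPdef, ev, hl0.symm]
  have hPl : P il = a := by simp [hPdef, ev, hl0]
  have hPm : P im = 0 := by simp [hPdef, ev, hm0, hml]
  have hP : P ≠ 0 := by
    intro h
    rw [h] at hP0
    simp at hP0
  have hPn : Projectivization.mk K P hP ∉ stdNRC K k := by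
    rintro (⟨t, h, he⟩ | ⟨h, he⟩)
    · rw [Projectivization.mk_eq_mk_iff'] at he
      obtain ⟨b, hb⟩ := he
      have e1 := congrFun hb il
      have e2 : nu k t il = 1 := by simp [nu, hil]
      rw [Pi.smul_apply, e2, hPl, smul_eq_mul, mul_one] at e1
      have e3 := congrFun hb im
      have e4 : nu k t im = t := by
        have : k - 1 - (k - 2) = 1 := by omega
        simp [nu, him, this]
      rw [Pi.smul_apply, e4, hPm, smul_eq_mul, e1] at e3
      have e5 : t = 0 := (mul_eq_zero.mp e3).resolve_left ha0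
      have e6 := congrFun hb i0
      have e7 : nu k t i0 = 0 := by
        have : k - 1 ≠ 0 := by omega
        simp [nu, hi0, e5, this]
      rw [Pi.smul_apply, e7, hP0] at e6
      simp at e6
    · rw [Projectivization.mk_eq_mk_iff'] at he
      obtain ⟨b, hb⟩ := he
      have e1 := congrFun hb il
      rw [hPl] at e1
      have : ¬ (k - 1 = 0) := by omega
      simp [nuInf, hil, this] at e1
      exact ha0 e1.symm
  have hlP : ∀ l : V K k →ₗ[K] K, l P = l (nuInf K k) + a * (fpoly l).eval 0 := by
    intro l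
    have e1 : (fpoly l).coeff (k - 1 - (k - 1)) = l (ev K il) := fpoly_coeff l il
    rw [Nat.sub_self, coeff_zero_eq_eval_zero] at e1
    rw [hPdef, map_add, map_smul, smul_eq_mul, e1, nuInf_eq hk]
    rfl
  obtain ⟨T0, hT0, hT0c⟩ := Finset.exists_subset_card_eq (s := S) (n := n - 1) (by omega)
  have key : IsArc (cp (by omega) P hP '' ((insert none (emb T0) :
      Finset (Option (Option K))) : Set (Option (Option K)))) := by
    refine isArc_codes (by omega) P hP _ S ?_ ?_ ?_
    · intro t ht
      simp only [Finset.mem_insert, reduceCtorEq, false_or, mem_emb] at ht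
      obtain ⟨s, hs, hst⟩ := ht
      simp only [Option.some.injEq] at hst
      rw [hst]
      exact hT0 hs
    · intro l T hT hTc hl hlP0
      have h1 := fpoly_prod hk l T hTc hl
      rw [hlP, h1, eval_mul, eval_C, eval_prod] at hlP0
      have h4 : ∏ t ∈ T, eval 0 (X - C t) = (-1) ^ (k - 1) * ∏ t ∈ T, t := by
        rw [← hTc, ← Finset.prod_const, ← Finset.prod_mul_distrib]
        exact Finset.prod_congr rfl fun t _ => by simp
      rw [h4] at hlP0
      have h5 : ((-1 : K)) ^ k * (-1) ^ (k - 1) = -1 := by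
        rw [← pow_add]
        have : k + (k - 1) = 2 * (k - 1) + 1 := by omega
        rw [this, pow_succ, pow_mul]
        simp
      have h7 : l (nuInf K k) * (c - ∏ t ∈ T, t) = 0 := by
        have h8 : l (nuInf K k) * (c - ∏ t ∈ T, t) =
            c * (l (nuInf K k) + a * (l (nuInf K k) * ((-1) ^ (k - 1) * ∏ t ∈ T, t))) := by
          rw [ha]
          have h9 : c * c⁻¹ = 1 := mul_inv_cancel₀ hc0
          linear_combination (-l (nuInf K k) * (∏ t ∈ T, t)) * h5 * (c * c⁻¹) +
            l (nuInf K k) * (∏ t ∈ T, t) * h9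
        rw [h8, hlP0, mul_zero]
      have h6 : l (nuInf K k) = 0 :=
        (mul_eq_zero.mp h7).resolve_right (sub_ne_zero.mpr (hS T hT hTc).symm)
      exact l_zero_of_card' l T hTc.ge hk hl h6
    · intro hmem
      simp [mem_emb] at hmem
  have hc : (insert none (emb T0) : Finset (Option (Option K))).card = n := by
    rw [Finset.card_insert_of_notMem, card_emb, hT0c]
    · omega
    · simp [mem_emb]
  obtain ⟨A, h1, h2, h4⟩ := nonrat h3 hq P hP hPn _ (Finset.mem_insert_self _ _) (by rw [hc]; exact hn) key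
  exact ⟨A, h1, by rw [h2, hc], h4⟩

end

end Pool.Agent.Helper98.NRC
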